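import Pool.Agent.K6.H33.NT.Stm

set_option autoImplicit false
set_option linter.unusedSectionVars false
set_option linter.unusedVariables false

/-! # Scaling of a part of the coordinates -/

namespace Pool.Agent.K6.H33.NT

open MvPolynomial Pool.Agent.W428.MOT Pool.Agent.TH192.DT Pool.Agent.TH192.MT
  Pool.Agent.TH192.MU

section scale

variable {K : Type} [Field K] {R : Type} [CommRing R] (M : Meas K R) {κ : Type} [Fintype κ]
  (σ : κ → Prop) [DecidablePred σ]

/-- the scaling of the coordinates with `σ` -/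
noncomputable def scP (c : AlgebraicClosure K) (z : Pt K κ) : Pt K κ :=
  fun i => if σ i then c * z i else z i

theorem scP_pos (c : AlgebraicClosure K) (z : Pt K κ) {i : κ} (h : σ i) :
    scP σ c z i = c * z i := if_pos h

theorem scP_neg (c : AlgebraicClosure K) (z : Pt K κ) {i : κ} (h : ¬ σ i) :
    scP σ c z i = z i := if_neg h

theorem scP_scP (c d : AlgebraicClosure K) (z : Pt K κ) :
    scP σ c (scP σ d z) = scP σ (c * d) z := by
  funext i
  by_cases h : σ i
  · rw [scP_pos σ _ _ h, scP_pos σ _ _ h, scP_pos σ _ _ h, mul_assoc]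
  · rw [scP_neg σ _ _ h, scP_neg σ _ _ h, scP_neg σ _ _ h]

theorem scP_one (z : Pt K κ) : scP σ 1 z = z := by
  funext i
  by_cases h : σ i
  · rw [scP_pos σ _ _ h, one_mul]
  · rw [scP_neg σ _ _ h]

/-- A set which is invariant under scaling, and a coordinate which does not vanish. -/
theorem chi_scP (A : Set (Pt K κ)) (hA : Constr A) (i0 : κ) (hσ : σ i0)
    (h1 : ∀ z ∈ A, z i0 ≠ 0) (h2 : ∀ z ∈ A, ∀ c, c ≠ 0 → scP σ c z ∈ A) :
    M.χ _ A = (M.L - 1) * M.χ _ (A ∩ {z | z i0 = 1}) := by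
  classical
  set S : Set (Pt K κ) := {w | Function.update w i0 1 ∈ A} with hS
  have hSc : Constr S := by
    refine hA.preimage (fun w : Pt K κ => Function.update w i0 1) fun i => ?_
    by_cases h : i = i0
    · subst h
      simp only [Function.update_self]
      exact IsPF.one
    · simp only [Function.update_of_ne h]
      exact IsPF.coord i
  have h3 := Pool.Agent.W417.MT.Free.main M S {i0} ∅ (fun _ => 1)
    (Finset.disjoint_empty_right _) hSc (by
      intro z w hzw hz
      have h4 : Function.update w i0 1 = Function.update z i0 1 := by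
        funext i
        by_cases h : i = i0
        · rw [h, Function.update_self, Function.update_self]
        · rw [Function.update_of_ne h, Function.update_of_ne h]
          exact hzw i (by simpa using h) (Finset.notMem_empty i)
      change Function.update w i0 1 ∈ A
      rw [h4]
      exact hz)
  simp only [Finset.mem_singleton, forall_eq, Finset.union_empty, map_one, Finset.card_singleton,
    pow_one, Finset.card_empty, pow_zero, mul_one] at h3
  have h4 : S ∩ {z : Pt K κ | z i0 = 1} = A ∩ {z | z i0 = 1} := by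
    ext z
    simp only [hS, Set.mem_inter_iff, Set.mem_ofPred_eq]
    constructor
    · rintro ⟨h5, h6⟩
      have h7 : Function.update z i0 1 = z := by
        rw [← h6, Function.update_eq_self]
      rw [h7] at h5
      exact ⟨h5, h6⟩
    · rintro ⟨h5, h6⟩
      have h7 : Function.update z i0 1 = z := by
        rw [← h6, Function.update_eq_self]
      rw [h7]
      exact ⟨h5, h6⟩
  rw [h4] at h3
  rw [mul_comm, ← h3]
  have hne : Constr {z : Pt K κ | z i0 ≠ 0} := Constr.not (Constr.eqz (IsPF.coord i0))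
  have hup : ∀ z : Pt K κ, z i0 ≠ 0 →
      Function.update (Function.update (scP σ (z i0)⁻¹ z) i0 (z i0)) i0 1 =
        scP σ (z i0)⁻¹ z := by
    intro z h5
    rw [Function.update_idem]
    have h7 : (scP σ (z i0)⁻¹ z) i0 = 1 := by
      rw [scP_pos σ _ _ hσ]
      exact inv_mul_cancel₀ h5
    rw [← h7, Function.update_eq_self]
  -- the isomorphism
  refine M.iso _ _ hA (hSc.inter hne)
    (fun z => Function.update (scP σ (z i0)⁻¹ z) i0 (z i0))
    (fun w => scP σ (w i0) (Function.update w i0 1)) ?_ ?_ ?_ ?_ ?_ ?_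
  · intro i
    by_cases h : i = i0
    · subst h
      simp only [Function.update_self]
      exact (IsPF.coord i).isRF _
    · simp only [Function.update_of_ne h]
      by_cases hi : σ i
      · have h5 : IsRF A (fun z : Pt K κ => z i / z i0) :=
          ((IsPF.coord i).isRF _).div ((IsPF.coord i0).isRF _) h1
        refine h5.congr fun z hz => ?_
        rw [scP_pos σ _ _ hi, div_eq_mul_inv, mul_comm]
      · simp only [scP_neg σ _ _ hi]
        exact (IsPF.coord i).isRF _
  · refine regularOn_poly (fun i => ?_) _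
    by_cases hi : σ i
    · simp only [scP_pos σ _ _ hi]
      refine (IsPF.coord _).mul ?_
      by_cases h : i = i0
      · rw [h]
        simp only [Function.update_self]
        exact IsPF.one
      · simp only [Function.update_of_ne h]
        exact IsPF.coord _
    · have h5 : i ≠ i0 := by
        rintro rfl
        exact hi hσ
      simp only [scP_neg σ _ _ hi, Function.update_of_ne h5]
      exact IsPF.coord _
  · intro z hz
    have h5 := h1 z hz
    refine ⟨?_, ?_⟩
    · change Function.update (Function.update (scP σ (z i0)⁻¹ z) i0 (z i0)) i0 1 ∈ A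
      rw [hup z h5]
      exact h2 z hz _ (inv_ne_zero h5)
    · change Function.update (scP σ (z i0)⁻¹ z) i0 (z i0) i0 ≠ 0
      rw [Function.update_self]
      exact h5
  · rintro w ⟨h5, h6⟩
    exact h2 _ h5 _ h6
  · intro z hz
    have h5 := h1 z hz
    have h6 := hup z h5
    simp only [h6, Function.update_self]
    rw [scP_scP, mul_inv_cancel₀ h5, scP_one]
  · rintro w ⟨h5, h6⟩
    have h7 : (scP σ (w i0) (Function.update w i0 1)) i0 = w i0 := by
      rw [scP_pos σ _ _ hσ, Function.update_self, mul_one]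
    simp only [h7]
    rw [scP_scP, inv_mul_cancel₀ h6, scP_one, Function.update_idem, Function.update_eq_self]

end scale

section part

variable {K : Type} [Field K] {T : ℕ} {π : Type} {X : Sys T} (ω : X.ι → Prop) [DecidablePred ω]
  {e : Fin T → ℕ}

/-- the coordinates with `ω` of the origin are replaced -/
noncomputable def rp (c : AlgebraicClosure K) (v : Pt K (π ⊕ (X.ι ⊕ X.Λ))) :
    Pt K (π ⊕ (X.ι ⊕ X.Λ)) :=
  Sum.elim (fun p => v (Sum.inl p)) (Sum.elim
    (fun i => if ω i then c * v (Sum.inr (Sum.inl i)) else v (Sum.inr (Sum.inl i)))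
    (fun l => v (Sum.inr (Sum.inr l))))

/-- the coordinates with `ω` of the origin are replaced by `0` -/
def VP (V : Set (Pt K (π ⊕ (X.ι ⊕ X.Λ)))) : Set (Pt K (π ⊕ (X.ι ⊕ X.Λ))) :=
  {v | rp ω 0 v ∈ V}

theorem constr_VP {V : Set (Pt K (π ⊕ (X.ι ⊕ X.Λ)))} (hV : Constr V) :
    Constr (VP ω V) := by
  refine hV.preimage (fun v : Pt K (π ⊕ (X.ι ⊕ X.Λ)) => rp ω 0 v) ?_
  rintro (p | i | l)
  · exact IsPF.coord _
  · change IsPF fun v : Pt K (π ⊕ (X.ι ⊕ X.Λ)) => if ω i then 0 * v (Sum.inr (Sum.inl i)) else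
      v (Sum.inr (Sum.inl i))
    by_cases h : ω i
    · simp only [if_pos h, zero_mul]
      exact IsPF.zero
    · simp only [if_neg h]
      exact IsPF.coord _
  · exact IsPF.coord _

theorem gd_VP {V : Set (Pt K (π ⊕ (X.ι ⊕ X.Λ)))} (hV : Gd X V) : Gd X (VP ω V) :=
  fun _ hv t => hV _ hv t

theorem cone_VP {V : Set (Pt K (π ⊕ (X.ι ⊕ X.Λ)))} (hV : Cone X V) : Cone X (VP ω V) := by
  intro v hv μ hμ
  exact hV _ hv μ hμ

theorem rp_rp (v : Pt K (π ⊕ (X.ι ⊕ X.Λ))) : rp ω 0 (rp ω 0 v) = rp ω 0 v := by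
  funext i
  rcases i with p | i | l
  · rfl
  · change (if ω i then 0 * (if ω i then 0 * v (Sum.inr (Sum.inl i)) else
      v (Sum.inr (Sum.inl i))) else (if ω i then 0 * v (Sum.inr (Sum.inl i)) else
      v (Sum.inr (Sum.inl i)))) = if ω i then 0 * v (Sum.inr (Sum.inl i)) else
      v (Sum.inr (Sum.inl i))
    by_cases h : ω i
    · simp only [if_pos h, zero_mul]
    · simp only [if_neg h]
  · rfl

theorem VP_VP (V : Set (Pt K (π ⊕ (X.ι ⊕ X.Λ)))) : VP ω (VP ω V) = VP ω V := by
  ext v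
  change rp ω 0 (rp ω 0 v) ∈ V ↔ rp ω 0 v ∈ V
  rw [rp_rp]

theorem rp_id {v : Pt K (π ⊕ (X.ι ⊕ X.Λ))} (h : ∀ i, ω i → v (Sum.inr (Sum.inl i)) = 0) :
    rp ω 0 v = v := by
  funext i
  rcases i with p | i | l
  · rfl
  · change (if ω i then 0 * v (Sum.inr (Sum.inl i)) else v (Sum.inr (Sum.inl i))) = _
    by_cases hi : ω i
    · rw [if_pos hi, zero_mul, h i hi]
    · rw [if_neg hi]
  · rfl

/-- dropping the coefficient of order `0` for the coordinates with `ω` -/
noncomputable def fw {N : ℕ} (z : Pt K (π ⊕ X.ι × Fin (N + 2))) :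
    Pt K ((π ⊕ X.ι × Fin (N + 1)) ⊕ {i // ¬ ω i}) :=
  Sum.elim (Sum.elim (fun p => z (Sum.inl p))
    (fun q => if ω q.1 then z (Sum.inr (q.1, q.2.succ)) else z (Sum.inr (q.1, q.2.castSucc))))
    (fun i => z (Sum.inr (i.1, Fin.last _)))

/-- the inverse map -/
noncomputable def bw {N : ℕ} (w : Pt K ((π ⊕ X.ι × Fin (N + 1)) ⊕ {i // ¬ ω i})) :
    Pt K (π ⊕ X.ι × Fin (N + 2)) :=
  Sum.elim (fun p => w (Sum.inl (Sum.inl p)))
    (fun q => if h : ω q.1 then Fin.cases (motive := fun _ => AlgebraicClosure K) 0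
      (fun j => w (Sum.inl (Sum.inr (q.1, j)))) q.2 else
      Fin.lastCases (motive := fun _ => AlgebraicClosure K) (w (Sum.inr ⟨q.1, h⟩))
      (fun j => w (Sum.inl (Sum.inr (q.1, j)))) q.2)

section maps

variable {ω} {N : ℕ} (z : Pt K (π ⊕ X.ι × Fin (N + 2)))
  (w : Pt K ((π ⊕ X.ι × Fin (N + 1)) ⊕ {i // ¬ ω i})) {i : X.ι}

theorem fw_p (p : π) : fw ω z (Sum.inl (Sum.inl p)) = z (Sum.inl p) := rfl

theorem fw_pos (h : ω i) (j : Fin (N + 1)) : fw ω z (Sum.inl (Sum.inr (i, j))) =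
    z (Sum.inr (i, j.succ)) := if_pos h

theorem fw_neg (h : ¬ ω i) (j : Fin (N + 1)) : fw ω z (Sum.inl (Sum.inr (i, j))) =
    z (Sum.inr (i, j.castSucc)) := if_neg h

theorem fw_last (i : {i // ¬ ω i}) : fw ω z (Sum.inr i) = z (Sum.inr (i.1, Fin.last _)) := rfl

theorem bw_p (p : π) : bw ω w (Sum.inl p) = w (Sum.inl (Sum.inl p)) := rfl

theorem bw_zero (h : ω i) : bw ω w (Sum.inr (i, 0)) = 0 := by
  simp only [bw, Sum.elim_inr, dif_pos h, Fin.cases_zero]

theorem bw_succ (h : ω i) (j : Fin (N + 1)) : bw ω w (Sum.inr (i, j.succ)) =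
    w (Sum.inl (Sum.inr (i, j))) := by
  simp only [bw, Sum.elim_inr, dif_pos h, Fin.cases_succ]

theorem bw_last (h : ¬ ω i) : bw ω w (Sum.inr (i, Fin.last _)) = w (Sum.inr ⟨i, h⟩) := by
  simp only [bw, Sum.elim_inr, dif_neg h, Fin.lastCases_last]

theorem bw_castSucc (h : ¬ ω i) (j : Fin (N + 1)) : bw ω w (Sum.inr (i, j.castSucc)) =
    w (Sum.inl (Sum.inr (i, j))) := by
  simp only [bw, Sum.elim_inr, dif_neg h, Fin.lastCases_castSucc]

end maps

theorem pf_fw {N : ℕ} (i : (π ⊕ X.ι × Fin (N + 1)) ⊕ {i // ¬ ω i}) :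
    IsPF fun z : Pt K (π ⊕ X.ι × Fin (N + 2)) => fw ω z i := by
  rcases i with (p | ⟨i, j⟩) | i
  · exact IsPF.coord _
  · by_cases h : ω i
    · simp only [fw_pos _ h]
      exact IsPF.coord _
    · simp only [fw_neg _ h]
      exact IsPF.coord _
  · exact IsPF.coord _

theorem pf_bw {N : ℕ} (i : π ⊕ X.ι × Fin (N + 2)) :
    IsPF fun w : Pt K ((π ⊕ X.ι × Fin (N + 1)) ⊕ {i // ¬ ω i}) => bw ω w i := by
  rcases i with p | ⟨i, j⟩
  · exact IsPF.coord _
  · by_cases h : ω i
    · refine Fin.cases ?_ (fun j => ?_) j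
      · simp only [bw_zero _ h]
        exact IsPF.zero
      · simp only [bw_succ _ h]
        exact IsPF.coord _
    · refine Fin.lastCases ?_ (fun j => ?_) j
      · simp only [bw_last _ h]
        exact IsPF.coord _
      · simp only [bw_castSucc _ h]
        exact IsPF.coord _

theorem bw_fw {N : ℕ} (z : Pt K (π ⊕ X.ι × Fin (N + 2))) (hz : ∀ i, ω i → z (Sum.inr (i, 0)) = 0) :
    bw ω (fw ω z) = z := by
  funext i
  rcases i with p | ⟨i, j⟩
  · rfl
  · by_cases h : ω i
    · refine Fin.cases ?_ (fun j => ?_) j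
      · rw [bw_zero _ h, hz i h]
      · rw [bw_succ _ h, fw_pos _ h]
    · refine Fin.lastCases ?_ (fun j => ?_) j
      · rw [bw_last _ h, fw_last]
      · rw [bw_castSucc _ h, fw_neg _ h]

theorem fw_bw {N : ℕ} (w : Pt K ((π ⊕ X.ι × Fin (N + 1)) ⊕ {i // ¬ ω i})) :
    fw ω (bw ω w) = w := by
  funext i
  rcases i with (p | ⟨i, j⟩) | i
  · rfl
  · by_cases h : ω i
    · rw [fw_pos _ h, bw_succ _ h]
    · rw [fw_neg _ h, bw_castSucc _ h]
  · rw [fw_last, bw_last _ i.2]

variable (he : PHom X ω e)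
include he

theorem van_scP {F : Type} [Field F] (β : Fin T → ℕ) (x : X.ι → PowerSeries F) :
    (Van X (fun t => e t + β t) (fun i => if ω i then PowerSeries.X * x i else x i) ↔
      Van X β x) ∧
      lam X (fun t => e t + β t) (fun i => if ω i then PowerSeries.X * x i else x i) =
        lam X β x := by
  have h1 : ∀ l, ev (fun i => if ω i then (PowerSeries.X : PowerSeries F) * x i else x i) (X.G l) =
      PowerSeries.X ^ (e (X.τ l)) * ev x (X.G l) := fun l => he l _ _ _
  constructor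
  · unfold Van
    refine forall_congr' fun l => ?_
    rw [vn_iff, vn_iff, h1, pow_add]
    exact mul_dvd_mul_iff_left (pow_ne_zero _ PowerSeries.X_ne_zero)
  · funext l
    unfold lam
    rw [h1]
    have := PowerSeries.coeff_X_pow_mul (ev x (X.G l)) (e (X.τ l)) (β (X.τ l))
    rw [← this]
    congr 1
    exact congrArg PowerSeries.coeff (Nat.add_comm _ _)

variable {R : Type} [CommRing R] (M : Meas K R) [Fintype π]

theorem mm_scP (v : R) (hv : M.L * v = 1) {V : Set (Pt K (π ⊕ (X.ι ⊕ X.Λ)))}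
    (hV : Constr V) (h0 : ∀ w ∈ V, ∀ i, ω i → w (Sum.inr (Sum.inl i)) = 0) (β : Fin T → ℕ) :
    mm M v X V (fun t => e t + β t) =
      v ^ (Fintype.card {i // ω i}) * mm M v X (VP ω V) β := by
  set N := ∑ t, (e t + β t) with hN
  have h1 : ∀ t, e t + β t ≤ N := fun t => Finset.single_le_sum (f := fun t => e t + β t)
    (fun _ _ => Nat.zero_le _) (Finset.mem_univ t)
  rw [← mm_eq M v hv X hV (fun t => e t + β t) (N + 1) (fun t => (h1 t).trans (Nat.le_succ _)),
    ← mm_eq M v hv X (constr_VP ω hV) β N (fun t => (Nat.le_add_left _ _).trans (h1 t))]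
  -- the shift of the coefficients
  have key : ∀ (z : Pt K (π ⊕ X.ι × Fin (N + 2))) (w : Pt K (π ⊕ X.ι × Fin (N + 1))),
      (∀ p, z (Sum.inl p) = w (Sum.inl p)) → (∀ i, ω i → z (Sum.inr (i, 0)) = 0) →
      (∀ i, ω i → ∀ (j : Fin (N + 1)), z (Sum.inr (i, j.succ)) = w (Sum.inr (i, j))) →
      (∀ i, ¬ ω i → ∀ (j : Fin (N + 1)), z (Sum.inr (i, j.castSucc)) = w (Sum.inr (i, j))) →
      (z ∈ SS X V (fun t => e t + β t) (N + 1) ↔ w ∈ SS X (VP ω V) β N) := by
    intro z w hp hz hzw hzw'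
    have h3 : ∀ i, Cg N ((ar fun q => z (Sum.inr q)) i) (if ω i then PowerSeries.X *
        ar (fun q => w (Sum.inr q)) i else ar (fun q => w (Sum.inr q)) i) := by
      intro i j hj
      by_cases hi : ω i
      · rw [if_pos hi, coeff_ar]
        rcases j with _ | j
        · rw [dif_pos (by omega), PowerSeries.coeff_zero_X_mul]
          exact hz i hi
        · rw [PowerSeries.coeff_succ_X_mul, coeff_ar, dif_pos (by omega), dif_pos (by omega)]
          exact hzw i hi ⟨j, by omega⟩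
      · rw [if_neg hi, coeff_ar, coeff_ar, dif_pos (by omega), dif_pos (by omega)]
        exact hzw' i hi ⟨j, by omega⟩
    obtain ⟨h4, h5⟩ := van_scP ω he β (ar fun q => w (Sum.inr q))
    unfold SS
    rw [Set.mem_ofPred_eq, Set.mem_ofPred_eq, van_congr X h3 h1]
    refine and_congr h4 ?_
    unfold VP
    rw [Set.mem_ofPred_eq]
    have h6 : dat X (fun t => e t + β t) z = rp ω 0 (dat X β w) := by
      funext i
      rcases i with p | i | l
      · exact hp p
      · change z (Sum.inr (i, 0)) = if ω i then 0 * w (Sum.inr (i, 0)) else w (Sum.inr (i, 0))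
        by_cases hi : ω i
        · rw [if_pos hi, zero_mul, hz i hi]
        · rw [if_neg hi, ← hzw' i hi]
          rfl
      · change lam X (fun t => e t + β t) (ar fun q => z (Sum.inr q)) l =
          lam X β (ar fun q => w (Sum.inr q)) l
        rw [lam_congr X h3 h1, h5]
    rw [h6]
  have hS1 : Constr {w : Pt K ((π ⊕ X.ι × Fin (N + 1)) ⊕ {i // ¬ ω i}) |
      (fun i => w (Sum.inl i)) ∈ SS X (VP ω V) β N} :=
    (constr_SS X (constr_VP ω hV) β N).preimage _ fun i => IsPF.coord _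
  have h2 : M.χ _ (SS X V (fun t => e t + β t) (N + 1)) =
      M.χ _ {w : Pt K ((π ⊕ X.ι × Fin (N + 1)) ⊕ {i // ¬ ω i}) |
        (fun i => w (Sum.inl i)) ∈ SS X (VP ω V) β N} := by
    refine M.iso _ _ (constr_SS X hV _ _) hS1 (fw ω) (bw ω) (regularOn_poly (pf_fw ω) _)
      (regularOn_poly (pf_bw ω) _) ?_ ?_ ?_ ?_
    · intro z hz
      exact (key z (fun i => fw ω z (Sum.inl i)) (fun _ => rfl)
        (fun i hi => h0 _ hz.2 i hi) (fun i hi j => (fw_pos z hi j).symm)
        fun i hi j => (fw_neg z hi j).symm).1 hz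
    · intro w hw
      exact (key (bw ω w) (fun i => w (Sum.inl i)) (fun _ => rfl) (fun i hi => bw_zero w hi)
        (fun i hi j => bw_succ w hi j) fun i hi j => bw_castSucc w hi j).2 hw
    · intro z hz
      exact bw_fw ω z fun i hi => h0 _ hz.2 i hi
    · intro w _
      exact fw_bw ω w
  have h3 := chi_split M (Equiv.refl ((π ⊕ X.ι × Fin (N + 1)) ⊕ {i // ¬ ω i}))
    {w : Pt K ((π ⊕ X.ι × Fin (N + 1)) ⊕ {i // ¬ ω i}) |
        (fun i => w (Sum.inl i)) ∈ SS X (VP ω V) β N} _
    (constr_SS X (constr_VP ω hV) β N) fun z => Iff.rfl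
  have h4 : Fintype.card X.ι = Fintype.card {i // ω i} + Fintype.card {i // ¬ ω i} := by
    rw [← Fintype.card_sum, Fintype.card_congr (Equiv.sumCompl ω)]
  rw [h2, h3, add_mul N 1, pow_add, one_mul]
  have h5 : M.L ^ Fintype.card {i // ¬ ω i} * v ^ Fintype.card {i // ¬ ω i} = 1 := by
    rw [← mul_pow, hv, one_pow]
  have h6 : v ^ Fintype.card X.ι = v ^ Fintype.card {i // ω i} *
      v ^ Fintype.card {i // ¬ ω i} := by
    rw [h4, pow_add]
  rw [h6]
  linear_combination (M.χ _ (SS X (VP ω V) β N) * v ^ (N * Fintype.card X.ι) *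
    v ^ Fintype.card {i // ω i}) * h5

theorem mm_scP_zero (v : R) {V : Set (Pt K (π ⊕ (X.ι ⊕ X.Λ)))}
    (hG : Gd X V) (h0 : ∀ w ∈ V, ∀ i, ω i → w (Sum.inr (Sum.inl i)) = 0) (α : Fin T → ℕ)
    (hα : ∃ t, α t < e t) : mm M v X V α = 0 := by
  have h1 : SS X V α (∑ t, α t) = ∅ := by
    rw [Set.eq_empty_iff_forall_notMem]
    intro z hz
    obtain ⟨t, ht⟩ := hα
    obtain ⟨l, hl, hl'⟩ := hG _ hz.2 t
    apply hl'
    change lam X α (ar fun q => z (Sum.inr q)) l = 0
    have h3 : ∃ x : X.ι → PowerSeries (AlgebraicClosure K),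
        (ar fun q => z (Sum.inr q)) = fun i => if ω i then PowerSeries.X * x i else x i := by
      have : ∀ i, ∃ y, ar (fun q => z (Sum.inr q)) i = if ω i then PowerSeries.X * y else y := by
        intro i
        by_cases hi : ω i
        · have h4 : (PowerSeries.X : PowerSeries (AlgebraicClosure K)) ∣
              ar (fun q => z (Sum.inr q)) i := by
            rw [PowerSeries.X_dvd_iff, ← PowerSeries.coeff_zero_eq_constantCoeff_apply,
              coeff_ar_zero]
            exact h0 _ hz.2 i hi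
          obtain ⟨y, hy⟩ := h4
          exact ⟨y, by rw [if_pos hi, hy]⟩
        · exact ⟨_, by rw [if_neg hi]⟩
      choose x hx using this
      exact ⟨x, funext hx⟩
    obtain ⟨x, hx⟩ := h3
    unfold lam
    rw [hx, he l]
    have h5 : Vn (e (X.τ l)) (PowerSeries.X ^ e (X.τ l) * ev x (X.G l) :
        PowerSeries (AlgebraicClosure K)) := vn_iff.2 (dvd_mul_right _ _)
    refine h5 _ ?_
    rw [hl]
    exact ht
  unfold mm
  rw [h1, Pool.Agent.W375.MT.chi_empty, zero_mul]

/-- The factor `𝕃 - 1`. -/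
theorem mm_gmP (v : R) {V : Set (Pt K (π ⊕ (X.ι ⊕ X.Λ)))}
    (hV : Constr V) (i : X.ι) (hi : ω i) (h0 : ∀ w ∈ V, w (Sum.inr (Sum.inl i)) ≠ 0)
    (hs : ∀ w ∈ V, ∀ c : AlgebraicClosure K, c ≠ 0 →
      scL X (fun t => c ^ e t) (rp ω c w) ∈ V)
    (α : Fin T → ℕ) : mm M v X V α = (M.L - 1) *
      mm M v X (V ∩ {w | w (Sum.inr (Sum.inl i)) = 1}) α := by
  unfold mm
  set N := ∑ t, α t
  -- the coordinates which are scaled
  set σ : π ⊕ X.ι × Fin (N + 1) → Prop := fun q => ∃ p, q = Sum.inr p ∧ ω p.1 with hσ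
  classical
  have h1 := chi_scP M σ (SS X V α N) (constr_SS X hV α N) (Sum.inr (i, 0)) ⟨(i, 0), rfl, hi⟩
    (fun z hz => h0 _ hz.2) (by
      rintro z ⟨hz1, hz2⟩ c hc
      have h2 : ∀ (q : X.ι × Fin (N + 1)), scP σ c z (Sum.inr q) =
          if ω q.1 then c * z (Sum.inr q) else z (Sum.inr q) := by
        intro q
        by_cases hq : ω q.1
        · rw [scP_pos σ _ _ ⟨q, rfl, hq⟩, if_pos hq]
        · rw [scP_neg σ, if_neg hq]
          rintro ⟨p, hp, hp'⟩
          rw [← Sum.inr.inj hp] at hp'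
          exact hq hp'
      have h2' : ∀ p, scP σ c z (Sum.inl p) = z (Sum.inl p) := by
        intro p
        rw [scP_neg σ]
        rintro ⟨q, hq, _⟩
        exact Sum.inl_ne_inr hq
      have h3 : (ar fun q => scP σ c z (Sum.inr q)) = fun i => if ω i then PowerSeries.C c *
          ar (fun q => z (Sum.inr q)) i else ar (fun q => z (Sum.inr q)) i := by
        funext i
        ext j
        rw [coeff_ar]
        by_cases hi : ω i
        · rw [if_pos hi, PowerSeries.coeff_C_mul, coeff_ar]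
          split_ifs
          · rw [h2, if_pos hi]
          · rw [mul_zero]
        · rw [if_neg hi, coeff_ar]
          split_ifs
          · rw [h2, if_neg hi]
          · rfl
      have h4 : ∀ l, ev (ar fun q => scP σ c z (Sum.inr q)) (X.G l) =
          PowerSeries.C (c ^ e (X.τ l)) * ev (ar fun q => z (Sum.inr q)) (X.G l) := by
        intro l
        rw [h3, he l, map_pow]
      refine ⟨fun l => ?_, ?_⟩
      · rw [h4 l]
        exact vn_mul _ (hz1 l)
      · have h5 := hs _ hz2 c hc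
        have h6 : dat X α (scP σ c z) = scL X (fun t => c ^ e t) (rp ω c (dat X α z)) := by
          funext j
          rcases j with p | j | l
          · exact h2' p
          · exact h2 (j, 0)
          · change PowerSeries.coeff (α (X.τ l)) (ev (ar fun q => scP σ c z (Sum.inr q)) (X.G l)) =
              c ^ e (X.τ l) * PowerSeries.coeff (α (X.τ l))
                (ev (ar fun q => z (Sum.inr q)) (X.G l))
            rw [h4 l, PowerSeries.coeff_C_mul]
        rw [h6]
        exact h5)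
  have h2 : SS X V α N ∩ {z | z (Sum.inr (i, 0)) = 1} =
      SS X (V ∩ {w | w (Sum.inr (Sum.inl i)) = 1}) α N := by
    ext z
    constructor
    · rintro ⟨⟨h3, h4⟩, h5⟩
      exact ⟨h3, h4, h5⟩
    · rintro ⟨h3, h4, h5⟩
      exact ⟨⟨h3, h4⟩, h5⟩
  rw [h1, h2, mul_assoc]

end part

section rec

variable {K : Type} [Field K] {T : ℕ} {R : Type} [CommRing R] {u : Rˣ} {M : Meas K R}
  {a : Fin T → ℕ} (hu : M.L = (u : R)) {D : Set (ℤ × ℤ)} {X : Sys T} (ω : X.ι → Prop)
  [DecidablePred ω] {e : Fin T → ℕ} (he : PHom X ω e)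
include hu he

theorem rl_nzP
    (hnz : ∀ (π : Type) [Fintype π] (V : Set (Pt K (π ⊕ (X.ι ⊕ X.Λ)))), Constr V → Gd X V →
      Cone X V → (∀ v ∈ V, ∃ i, ω i ∧ v (Sum.inr (Sum.inl i)) ≠ 0) →
      gf a (mm M (((u⁻¹ : Rˣ) : R)) X V) ∈ ratL u D)
    (π : Type) [Fintype π] (V : Set (Pt K (π ⊕ (X.ι ⊕ X.Λ)))) (hV : Constr V) (hG : Gd X V)
    (hC : Cone X V) (s : Finset {i // ω i}) :
    ∃ Z ∈ ratL u D, gf a (mm M (((u⁻¹ : Rˣ) : R)) X
      (VP ω V ∩ {v | ∃ i ∈ s, v (Sum.inr (Sum.inl i.1)) ≠ 0})) =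
        PowerSeries.C ((u : R) - 1) * Z := by
  classical
  have hV0 := constr_VP ω hV
  have hG0 := gd_VP ω hG
  have hC0 := cone_VP ω hC
  induction s using Finset.induction_on with
  | empty =>
    refine ⟨0, Subalgebra.zero_mem _, ?_⟩
    rw [mul_zero, gf_empty (a := a) hu D π _]
    rw [Set.eq_empty_iff_forall_notMem]
    rintro v ⟨_, i, hi, _⟩
    exact absurd hi (Finset.notMem_empty i)
  | insert i s hi ih =>
    obtain ⟨Z, hZ, hZ'⟩ := ih
    set A : Set (Pt K (π ⊕ (X.ι ⊕ X.Λ))) := VP ω V ∩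
      {v | ∃ i ∈ s, v (Sum.inr (Sum.inl i.1)) ≠ 0} with hA
    set B : Set (Pt K (π ⊕ (X.ι ⊕ X.Λ))) := VP ω V ∩
      {v | (∀ j ∈ s, v (Sum.inr (Sum.inl j.1)) = 0) ∧ v (Sum.inr (Sum.inl i.1)) ≠ 0} with hB
    have hAc : Constr A := hV0.inter (Constr.bexFinset s fun j _ =>
      Constr.not (Constr.eqz (IsPF.coord _)))
    have hBc : Constr B := hV0.inter (Constr.and (Constr.ballFinset s fun j _ =>
      Constr.eqz (IsPF.coord _)) (Constr.not (Constr.eqz (IsPF.coord _))))
    have hAB : VP ω V ∩ {v | ∃ j ∈ insert i s, v (Sum.inr (Sum.inl j.1)) ≠ 0} = A ∪ B := by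
      ext v
      simp only [hA, hB, Set.mem_inter_iff, Set.mem_union, Set.mem_ofPred_eq, Finset.mem_insert]
      constructor
      · rintro ⟨h1, j, hj, hj'⟩
        by_cases h : ∃ i ∈ s, v (Sum.inr (Sum.inl i.1)) ≠ 0
        · exact Or.inl ⟨h1, h⟩
        · push Not at h
          rcases hj with rfl | hj
          · exact Or.inr ⟨h1, h, hj'⟩
          · exact absurd (h j hj) hj'
      · rintro (⟨h1, j, hj, hj'⟩ | ⟨h1, h2, h3⟩)
        · exact ⟨h1, j, Or.inr hj, hj'⟩
        · exact ⟨h1, i, Or.inl rfl, h3⟩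
    have hdis : Disjoint A B := by
      rw [Set.disjoint_left]
      rintro v ⟨_, j, hj, hj'⟩ ⟨_, h2, _⟩
      exact hj' (h2 j hj)
    have hB1 : ∀ α, mm M (((u⁻¹ : Rˣ) : R)) X B α = ((u : R) - 1) *
        mm M (((u⁻¹ : Rˣ) : R)) X (B ∩ {w | w (Sum.inr (Sum.inl i.1)) = 1}) α := by
      intro α
      rw [← hu]
      refine mm_gmP ω he M _ hBc i.1 i.2 (fun w hw => hw.2.2) ?_ α
      rintro w ⟨hw1, hw2, hw3⟩ c hc
      have hrp : ∀ j : {i // ω i}, scL X (fun t => c ^ e t) (rp ω c w) (Sum.inr (Sum.inl j.1)) =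
          c * w (Sum.inr (Sum.inl j.1)) := fun j => if_pos j.2
      refine ⟨?_, fun j hj => ?_, ?_⟩
      · change rp ω 0 (scL X (fun t => c ^ e t) (rp ω c w)) ∈ V
        have h5 : rp ω 0 (scL X (fun t => c ^ e t) (rp ω c w)) =
            scL X (fun t => c ^ e t) (rp ω 0 w) := by
          funext j
          rcases j with p | j | l
          · rfl
          · change (if ω j then 0 * (if ω j then c * w (Sum.inr (Sum.inl j)) else
              w (Sum.inr (Sum.inl j))) else (if ω j then c * w (Sum.inr (Sum.inl j)) else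
              w (Sum.inr (Sum.inl j)))) = if ω j then 0 * w (Sum.inr (Sum.inl j)) else
              w (Sum.inr (Sum.inl j))
            by_cases h : ω j
            · simp only [if_pos h, zero_mul]
            · simp only [if_neg h]
          · rfl
        rw [h5]
        exact hC _ hw1 (fun t => c ^ e t) fun t => pow_ne_zero _ hc
      · rw [hrp, hw2 j hj, mul_zero]
      · rw [hrp]
        exact mul_ne_zero hc hw3
    have hB2 : gf a (mm M (((u⁻¹ : Rˣ) : R)) X B) = PowerSeries.C ((u : R) - 1) *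
        gf a (mm M (((u⁻¹ : Rˣ) : R)) X (B ∩ {w | w (Sum.inr (Sum.inl i.1)) = 1})) := by
      ext l
      rw [PowerSeries.coeff_C_mul]
      unfold gf
      rw [PowerSeries.coeff_mk, PowerSeries.coeff_mk, Finset.mul_sum]
      exact Finset.sum_congr rfl fun α _ => hB1 α
    refine ⟨Z + gf a (mm M (((u⁻¹ : Rˣ) : R)) X (B ∩ {w | w (Sum.inr (Sum.inl i.1)) = 1})),
      Subalgebra.add_mem _ hZ ?_, ?_⟩
    · refine hnz π _ (hBc.inter (Constr.eq (IsPF.coord _) IsPF.one))
        (fun v hv => hG0 v hv.1.1) (cone_inter X (cone_inter X hC0 ?_) ?_)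
        fun v hv => ⟨i.1, i.2, hv.1.2.2⟩
      · exact cone_origin X fun x => (∀ j ∈ s, x j.1 = 0) ∧ x i.1 ≠ 0
      · exact cone_origin X fun x => x i.1 = 1
    · rw [hAB, rt_union (D := D) hu π hAc hBc hdis, hZ', hB2, mul_add]

end rec

theorem pieceS : S_PS := by
  intro K _ T R _ u M a hu D X ha ω _ e he hN hD hnz
  classical
  intro π _ V hV hG hC
  -- the set where the coordinates with `ω` of the origin vanish
  set Z : Set (Pt K (π ⊕ (X.ι ⊕ X.Λ))) := {v | ∀ i : {i // ω i}, v (Sum.inr (Sum.inl i.1)) = 0}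
    with hZ
  have hZc : Constr Z := Constr.all fun i => Constr.eqz (IsPF.coord _)
  have hdec : ∀ V : Set (Pt K (π ⊕ (X.ι ⊕ X.Λ))), Constr V → Gd X V →
      gf a (mm M (((u⁻¹ : Rˣ) : R)) X V) = gf a (mm M (((u⁻¹ : Rˣ) : R)) X (V ∩ Zᶜ)) +
        PowerSeries.C (((u⁻¹ : Rˣ) : R) ^ Fintype.card {i // ω i}) *
          PowerSeries.X ^ (∑ t, a t * e t) * gf a (mm M (((u⁻¹ : Rˣ) : R)) X (VP ω V)) := by
    intro V hV hG
    have h1 : V = (V ∩ Zᶜ) ∪ (V ∩ Z) := by
      rw [Set.union_comm, Set.inter_union_compl]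
    conv_lhs => rw [h1, rt_union (D := D) hu π (hV.inter hZc.compl) (hV.inter hZc) (by
      rw [Set.disjoint_left]
      rintro v ⟨_, h2⟩ ⟨_, h3⟩
      exact h2 h3)]
    congr 1
    refine gf_shift a ha e _ _ _ (fun α hα => ?_) fun β => ?_
    · exact mm_scP_zero ω he M _ (fun v hv => hG v hv.1) (fun v hv i hi => hv.2 ⟨i, hi⟩) α hα
    · rw [mm_scP ω he M _ (hv hu) (hV.inter hZc) (fun v hv i hi => hv.2 ⟨i, hi⟩)]
      have h2 : VP ω (V ∩ Z) = VP ω V := by
        ext v
        refine ⟨fun h => h.1, fun h => ⟨h, fun i => ?_⟩⟩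
        change (if ω i.1 then 0 * v (Sum.inr (Sum.inl i.1)) else v (Sum.inr (Sum.inl i.1))) = 0
        rw [if_pos i.2, zero_mul]
      rw [h2]
  have hCZ : Cone X Zᶜ := cone_origin X fun x => ¬ ∀ i : {i // ω i}, x i.1 = 0
  rw [hdec V hV hG]
  refine Subalgebra.add_mem _ (hnz π _ (hV.inter hZc.compl) (fun v hv => hG v hv.1)
    (cone_inter X hC hCZ) fun v hv => ?_) (Subalgebra.mul_mem _
      (Subalgebra.mul_mem _ (ratL_C u _) (Subalgebra.pow_mem _ (ratL_X u) _)) ?_)
  · obtain ⟨i, hi⟩ := not_forall.1 hv.2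
    exact ⟨i.1, i.2, hi⟩
  have h3 := hdec (VP ω V) (constr_VP ω hV) (gd_VP ω hG)
  rw [VP_VP] at h3
  obtain ⟨Z', hZ', h4⟩ := rl_nzP (a := a) hu ω he hnz π V hV hG hC Finset.univ
  have h5 : VP ω V ∩ {v | ∃ i ∈ (Finset.univ : Finset {i // ω i}),
      v (Sum.inr (Sum.inl i.1)) ≠ 0} = VP ω V ∩ Zᶜ := by
    ext v
    simp only [hZ, Set.mem_inter_iff, Set.mem_compl_iff, Set.mem_ofPred_eq, Finset.mem_univ,
      true_and, not_forall]
  rw [h5] at h4
  rw [h4] at h3
  exact geoL_solve u hN hD _ _ hZ' h3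

end Pool.Agent.K6.H33.NT
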