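import Pool.Agent.K6.H33.NT.Rec
import Pool.Agent.K6.H33.NT.PS
import Pool.Agent.K6.H75.NT.JD
import Pool.Agent.K6.H33.NM.PI

set_option autoImplicit false

/-! # The topological zeta function of products of powers of nested minors -/

namespace Pool.Agent.K6.H33.NT

open MvPolynomial Pool.Agent.W428.MOT Pool.Agent.TH192.DT Pool.Agent.TH192.MT
  Pool.Agent.TH192.MU Pool.Agent.K6.H33.NM

section fam

variable {n : ℕ} (a : Fin n → ℕ)

/-- the number of the positive exponents -/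
noncomputable def nT : ℕ := Fintype.card {k : Fin n // 0 < a k}

/-- their indices -/
noncomputable def kp (t : Fin (nT a)) : Fin n := ((Fintype.equivFin {k : Fin n // 0 < a k}).symm t).1

theorem kp_pos (t : Fin (nT a)) : 0 < a (kp a t) :=
  ((Fintype.equivFin {k : Fin n // 0 < a k}).symm t).2

theorem sum_kp (g : Fin n → ℕ) (hg : ∀ k, a k = 0 → g k = 0) : ∑ t, g (kp a t) = ∑ k, g k := by
  have h1 : ∑ t, g (kp a t) = ∑ k : {k : Fin n // 0 < a k}, g k.1 :=
    (Fintype.equivFin {k : Fin n // 0 < a k}).symm.sum_comp fun k => g k.1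
  rw [h1, ← Finset.sum_subtype (Finset.univ.filter fun k : Fin n => 0 < a k) (by simp) g]
  refine Finset.sum_filter_of_ne fun k _ hk => ?_
  by_contra h
  exact hk (hg k (by omega))

theorem prod_kp {A : Type} [CommMonoid A] (g : Fin n → A) :
    ∏ t, g (kp a t) ^ a (kp a t) = ∏ k, g k ^ a k := by
  have h1 : ∏ t, g (kp a t) ^ a (kp a t) = ∏ k : {k : Fin n // 0 < a k}, g k.1 ^ a k.1 :=
    (Fintype.equivFin {k : Fin n // 0 < a k}).symm.prod_comp fun k => g k.1 ^ a k.1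
  rw [h1, ← Finset.prod_subtype (Finset.univ.filter fun k : Fin n => 0 < a k) (by simp)
    (fun k => g k ^ a k)]
  refine Finset.prod_filter_of_ne fun k _ hk => ?_
  by_contra h
  apply hk
  have h0 : a k = 0 := by omega
  rw [h0, pow_zero]

end fam

theorem Gm_hom (n : ℕ) (t : Fin n) : (Gm n t).IsHomogeneous ((t : ℕ) + 1) := by
  unfold Gm
  rw [Matrix.det_apply]
  refine IsHomogeneous.sum _ _ _ fun σ _ => ?_
  have h1 : (∏ i, (Matrix.of fun i j : Fin ((t : ℕ) + 1) =>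
      (X (Fin.castLE t.isLt i, Fin.castLE t.isLt j) : MvPolynomial (Fin n × Fin n) ℤ)) (σ i) i
      ).IsHomogeneous (∑ _i : Fin ((t : ℕ) + 1), 1) :=
    IsHomogeneous.prod _ _ _ fun i _ => isHomogeneous_X _ _
  rw [Finset.sum_const, Finset.card_univ, Fintype.card_fin, smul_eq_mul, mul_one] at h1
  rcases Int.units_eq_one_or (Equiv.Perm.sign σ) with h | h
  · rw [h, one_smul]
    exact h1
  · rw [h, Units.neg_smul, one_smul]
    exact h1.neg

theorem nested_hom {n : ℕ} (a : Fin n → ℕ) :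
    (map (Int.castRingHom ℂ) (nested n a)).IsHomogeneous (∑ k : Fin n, ((k : ℕ) + 1) * a k) := by
  have h1 : (nested n a).IsHomogeneous (∑ k : Fin n, ((k : ℕ) + 1) * a k) :=
    IsHomogeneous.prod _ _ _ fun k _ => (Gm_hom n k).pow _
  exact h1.map _

theorem sum_Ds {n : ℕ} (a : Fin n → ℕ) (r m : ℕ) (h : r + m < n) :
    (∑ t : Fin (nT a), if r ≤ (kp a t : ℕ) ∧ (kp a t : ℕ) - r < m + 1 then a (kp a t) else 0) =
      ∑ i ∈ Finset.Icc (⟨r, by omega⟩ : Fin n) ⟨r + m, h⟩, a i := by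
  rw [sum_kp a (fun k => if r ≤ (k : ℕ) ∧ (k : ℕ) - r < m + 1 then a k else 0) (by
    intro k hk
    rw [hk, ite_self]), ← Finset.sum_filter]
  congr 1
  ext k
  simp only [Finset.mem_filter, Finset.mem_univ, true_and, Finset.mem_Icc, Fin.le_def]
  omega

/-- **The topological zeta functions of the products of powers of nested minors.** -/
theorem top_nested (hPQ : S_PQ) (hLB : S_LB) {n : ℕ} (a : Fin n → ℕ) (ha : Wide a)
    {W : Set (Pt ℂ (Fin n × Fin n))} (hW : Constr W)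
    {R : Type} [CommRing R] [IsDomain R] (E : MK ℂ →+* R) (ε : R →+* ℂ)
    (h1 : ε (E ((Lu ℂ : (MK ℂ)ˣ) : MK ℂ)) = 1) (hu : E ((Lu ℂ : (MK ℂ)ˣ) : MK ℂ) ≠ 1) :
    ∃ Z : RatFunc ℂ,
      IsTopZeta E ε (zetaM (map (Int.castRingHom ℂ) (nested n a)) W {c | c ≠ 0}) Z ∧
      (∀ Z', IsTopZeta E ε (zetaM (map (Int.castRingHom ℂ) (nested n a)) W {c | c ≠ 0}) Z' →
        Z' = Z) ∧
      ∀ s₀ : ℂ, Z.denom.eval s₀ = 0 →
        (∃ k j : Fin n, k ≤ j ∧ 0 < a j ∧
          s₀ = -(((j : ℕ) : ℂ) - ((k : ℕ) : ℂ) + 1) / ((∑ i ∈ Finset.Icc k j, a i : ℕ) : ℂ)) ∧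
        ∀ b : Polynomial ℂ, Pool.Agent.H628R4.TP.IsLocalBFunction
          (map (Int.castRingHom ℂ) (nested n a)) b → b.eval s₀ = 0 := by
  have hJ := Pool.Agent.K6.H75.NT.pieceJ (fun t => Gm n (kp a t)) (fun t => a (kp a t))
    (fun t => kp_pos a t) hW (Ds (kp a) fun t => a (kp a t))
    (fun M hL => rl_minors hPQ pieceS hL (fun t => kp_pos a t) (kp a))
  rw [prod_kp a (Gm n)] at hJ
  have hN : (∏ k, Gm n k ^ a k) = nested n a := rfl
  rw [hN] at hJ
  obtain ⟨Z, hZ1, hZ2, hZ3⟩ := topZeta_main E ε h1 hu (D := Ds (kp a) fun t => a (kp a t)) (by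
    rintro q ⟨r, m, ⟨t, ht⟩, rfl⟩
    refine ⟨by simp only; omega, ?_⟩
    simp only
    have h2 : 0 < ∑ t : Fin (nT a), if r ≤ (kp a t : ℕ) ∧ (kp a t : ℕ) - r < m + 1 then
        a (kp a t) else 0 := by
      refine lt_of_lt_of_le ?_ (Finset.single_le_sum (f := fun t : Fin (nT a) =>
        if r ≤ (kp a t : ℕ) ∧ (kp a t : ℕ) - r < m + 1 then a (kp a t) else 0)
        (fun _ _ => Nat.zero_le _) (Finset.mem_univ t))
      rw [if_pos (by omega)]
      exact kp_pos a t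
    exact_mod_cast h2) hJ
  refine ⟨Z, hZ1, hZ2, fun s₀ hs => ?_⟩
  obtain ⟨q, ⟨r, m, ⟨t, ht⟩, rfl⟩, rfl⟩ := hZ3 s₀ hs
  have hrm : r + m < n := by have := (kp a t).2; omega
  have hpos : 0 < a ⟨r + m, hrm⟩ := by
    have h2 : kp a t = ⟨r + m, hrm⟩ := Fin.ext ht
    rw [← h2]
    exact kp_pos a t
  simp only
  rw [sum_Ds a r m hrm]
  refine ⟨⟨⟨r, by omega⟩, ⟨r + m, hrm⟩, by rw [Fin.le_def]; simp, hpos, ?_⟩, fun b hb => ?_⟩
  · push_cast
    ring
  · have h4 := ha ⟨r, by omega⟩ ⟨r + m, hrm⟩ (by rw [Fin.le_def]; simp) hpos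
    simp only at h4
    have h5 := root_nested a b (hLB _ _ (nested_hom a) b hb) r m (by omega) (by
      rw [sum_ex a r m hrm]
      omega)
    rw [sum_ex a r m hrm] at h5
    rw [← h5]
    congr 1
    push_cast
    rfl

end Pool.Agent.K6.H33.NT
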