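import Mathlib

set_option autoImplicit false

/-! # Nested minors of a matrix with an additional partial row: elimination -/

namespace Pool.Agent.K6.H33.NT

open Matrix

variable {A : Type} [CommRing A]

/-- The determinant of the first `q` rows and columns. -/
def dN (q : ℕ) (F : ℕ → ℕ → A) : A := Matrix.det (Matrix.of fun i j : Fin q => F i j)

/-- The array with the row `u` on top. -/
def top (u : ℕ → A) (C : ℕ → ℕ → A) : ℕ → ℕ → A
  | 0, j => u j
  | i + 1, j => C i j

/-- The column `k` is moved to the position `m - 1`: the old column at the new position `i`. -/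
def mv (k m i : ℕ) : ℕ :=
  if i < k then i else if i + 1 < m then i + 1 else if i + 1 = m then k else i

theorem mv_lt {k m q i : ℕ} (hk : k < m) (hm : m ≤ q) (hi : i < q) : mv k m i < q := by
  unfold mv
  split_ifs <;> omega

theorem mv_inj {k m i j : ℕ} (hk : k < m) (h : mv k m i = mv k m j) : i = j := by
  unfold mv at h
  split_ifs at h <;> omega

theorem dN_congr {q : ℕ} {F F' : ℕ → ℕ → A} (h : ∀ i < q, ∀ j < q, F i j = F' i j) :
    dN q F = dN q F' := by
  unfold dN
  congr 1
  ext i j
  exact h i i.2 j j.2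

theorem small_q {k q : ℕ} (hq : q < k) (u : ℕ → A) (C C' : ℕ → ℕ → A) (hU : IsUnit (u k))
    (h : ∀ a < q, ∀ i < k, u k * C' a i = u k * C a i - u i * C a k) :
    dN (q + 1) (top u C) = dN (q + 1) (top u C') := by
  obtain ⟨v, hv⟩ := hU.exists_left_inv
  unfold dN
  refine Matrix.det_eq_of_forall_row_eq_smul_add_const
    (fun i : Fin (q + 1) => Fin.cases 0 (fun a : Fin q => v * C a k) i) 0 (by simp) ?_
  intro i j
  refine Fin.cases ?_ (fun a => ?_) i
  · simp [top]
  · simp only [Matrix.of_apply, Fin.cases_succ, Fin.val_succ, Fin.val_zero]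
    change C a j = C' a j + v * C a k * u j
    have h1 := h a a.2 j (by omega)
    linear_combination (-v) * h1 + (C' a j - C a j) * hv

theorem mid_q {k m q : ℕ} (hk : k ≤ q) (hq : q < m) (u : ℕ → A) (C C' : ℕ → ℕ → A)
    (hU : IsUnit (u k))
    (h : ∀ a < q, ∀ i, i + 1 < m → u k * C' a i = u k * C a (mv k m i) - u (mv k m i) * C a k) :
    dN (q + 1) (top u C) = (-1) ^ k * u k * dN q C' := by
  obtain ⟨v, hv⟩ := hU.exists_left_inv
  have e1 : dN (q + 1) (top u C) = Matrix.det (Matrix.of fun i j : Fin (q + 1) =>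
      top u (fun a j => C a j - v * C a k * u j) i j) := by
    unfold dN
    refine Matrix.det_eq_of_forall_row_eq_smul_add_const
      (fun i : Fin (q + 1) => Fin.cases 0 (fun a : Fin q => v * C a k) i) 0 (by simp) ?_
    intro i j
    refine Fin.cases ?_ (fun a => ?_) i
    · simp [top]
    · simp only [Matrix.of_apply, Fin.cases_succ, Fin.val_succ, Fin.val_zero]
      change C a j = C a j - v * C a k * u j + v * C a k * u j
      ring
  rw [e1, Matrix.det_succ_column _ (⟨k, by omega⟩ : Fin (q + 1)), Finset.sum_eq_single 0]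
  · have e2 : (Matrix.of fun i j : Fin (q + 1) =>
        top u (fun a j => C a j - v * C a k * u j) i j) 0 ⟨k, by omega⟩ = u k := rfl
    rw [e2]
    have e3 : (Matrix.of fun i j : Fin (q + 1) =>
        top u (fun a j => C a j - v * C a k * u j) i j).submatrix (Fin.succAbove 0)
          (Fin.succAbove ⟨k, by omega⟩) = Matrix.of fun i j : Fin q => C' i j := by
      ext a i
      simp only [Matrix.submatrix_apply, Matrix.of_apply, Fin.zero_succAbove, Fin.val_succ]
      change C a ((Fin.succAbove (⟨k, by omega⟩ : Fin (q + 1)) i : Fin (q + 1)) : ℕ) -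
        v * C a k * u ((Fin.succAbove (⟨k, by omega⟩ : Fin (q + 1)) i : Fin (q + 1)) : ℕ) = C' a i
      have h2 : ((Fin.succAbove (⟨k, by omega⟩ : Fin (q + 1)) i : Fin (q + 1)) : ℕ) = mv k m i := by
        unfold mv
        by_cases h3 : (i : ℕ) < k
        · rw [if_pos h3, Fin.succAbove_of_castSucc_lt _ _ (by rw [Fin.lt_def]; exact h3)]
          rfl
        · rw [if_neg h3, if_pos (by omega), Fin.succAbove_of_le_castSucc _ _ (by
            rw [Fin.le_def]
            simp only [Fin.val_castSucc]
            omega)]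
          rfl
      rw [h2]
      have h1 := h a a.2 i (by omega)
      linear_combination (-v) * h1 + (C' a i - C a (mv k m i)) * hv
    rw [e3]
    simp only [Fin.val_zero, zero_add]
    rfl
  · intro b _ hb
    obtain ⟨a, rfl⟩ := Fin.exists_succ_eq.2 hb
    have e2 : (Matrix.of fun i j : Fin (q + 1) =>
        top u (fun a j => C a j - v * C a k * u j) i j) a.succ ⟨k, by omega⟩ = 0 := by
      simp only [Matrix.of_apply, Fin.val_succ]
      change C a k - v * C a k * u k = 0
      linear_combination (-C a k) * hv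
    rw [e2]
    ring
  · intro h; exact absurd (Finset.mem_univ _) h

/-- The permutation of the columns. -/
noncomputable def sg (k m q : ℕ) (hk : k < m) (hm : m ≤ q) : Equiv.Perm (Fin q) :=
  Equiv.ofBijective (fun i : Fin q => (⟨mv k m i, mv_lt hk hm i.2⟩ : Fin q))
    (Finite.injective_iff_bijective.1 fun i j h => Fin.ext (mv_inj hk (by simpa using h)))

theorem big_q {k m q : ℕ} (hk : k < m) (hm : m ≤ q) (u : ℕ → A) (C C' : ℕ → ℕ → A)
    (hU : IsUnit (u k))
    (h : ∀ a < q, ∀ i, i + 1 < m → u k * C' a i = u k * C a (mv k m i) - u (mv k m i) * C a k)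
    (h' : ∀ a < q, ∀ i < q, m ≤ i + 1 → C' a i = C a (mv k m i)) :
    dN q C = ((Equiv.Perm.sign (sg k m q hk hm) : ℤ) : A) * dN q C' := by
  obtain ⟨v, hv⟩ := hU.exists_left_inv
  set D : ℕ → ℕ → A := fun a o => if o ≠ k ∧ o < m then C a o - v * u o * C a k else C a o with hD
  have e1 : dN q C = dN q D := by
    unfold dN
    rw [← Matrix.det_transpose, ← Matrix.det_transpose (Matrix.of fun i j : Fin q => D i j)]
    refine Matrix.det_eq_of_forall_row_eq_smul_add_const
      (fun o : Fin q => if (o : ℕ) ≠ k ∧ (o : ℕ) < m then v * u o else 0) ⟨k, by omega⟩ (by simp) ?_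
    intro j i
    simp only [Matrix.transpose_apply, Matrix.of_apply, hD]
    by_cases h1 : (j : ℕ) ≠ k ∧ (j : ℕ) < m
    · simp only [if_pos h1, ne_eq, not_true_eq_false, false_and, if_false]
      ring
    · simp only [if_neg h1, zero_mul, add_zero]
  have e2 : (Matrix.of fun i j : Fin q => C' i j) =
      (Matrix.of fun i j : Fin q => D i j).submatrix id (sg k m q hk hm) := by
    ext a i
    simp only [Matrix.submatrix_apply, Matrix.of_apply, id]
    have h3 : ((sg k m q hk hm i : Fin q) : ℕ) = mv k m i := rfl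
    rw [h3, hD]
    simp only
    by_cases h4 : (i : ℕ) + 1 < m
    · have h5 : mv k m i ≠ k ∧ mv k m i < m := by
        unfold mv
        split_ifs <;> omega
      rw [if_pos h5]
      have h1 := h a a.2 i h4
      linear_combination (v) * h1 - (C' a i - C a (mv k m i)) * hv
    · have h5 : ¬ (mv k m i ≠ k ∧ mv k m i < m) := by
        unfold mv
        split_ifs <;> omega
      rw [if_neg h5]
      exact h' a a.2 i i.2 (by omega)
  have e3 : dN q C' = ((Equiv.Perm.sign (sg k m q hk hm) : ℤ) : A) * dN q D := by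
    unfold dN
    rw [e2, Matrix.det_permute']
  have hs : ((Equiv.Perm.sign (sg k m q hk hm) : ℤ) : A) *
      ((Equiv.Perm.sign (sg k m q hk hm) : ℤ) : A) = 1 := by
    rw [← Int.cast_mul, ← Units.val_mul, Int.units_mul_self]
    simp
  rw [e1, e3, ← mul_assoc, hs, one_mul]

theorem map_dN {B : Type} [CommRing B] (φ : A →+* B) (q : ℕ) (F : ℕ → ℕ → A) :
    φ (dN q F) = dN q (fun i j => φ (F i j)) := by
  unfold dN
  rw [RingHom.map_det]
  congr 1

end Pool.Agent.K6.H33.NT
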