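import Pool.Agent.K6.H33.NT.Stm
import Pool.Agent.K6.H33.NT.Lin

set_option autoImplicit false

/-! # The states of the recursion -/

namespace Pool.Agent.K6.H33.NT

open MvPolynomial Pool.Agent.W428.MOT Pool.Agent.TH192.DT Pool.Agent.TH192.MT
  Pool.Agent.TH192.MU

/-- The coordinates of a state: a partial row with `m` entries and `N` full rows. -/
abbrev Co (N m : ℕ) : Type := Fin m ⊕ (Fin N × Fin (N + 1))

/-- The partial row. -/
def ux {A : Type} [CommRing A] {N m : ℕ} (x : Co N m → A) (b : ℕ) : A :=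
  if h : b < m then x (Sum.inl ⟨b, h⟩) else 0

/-- The full rows. -/
def cx {A : Type} [CommRing A] {N m : ℕ} (x : Co N m → A) (a b : ℕ) : A :=
  if h : a < N ∧ b < N + 1 then x (Sum.inr (⟨a, h.1⟩, ⟨b, h.2⟩)) else 0

/-- The value of the polynomial of the family `t`: the families `t < r` are trivial. -/
def gv {A : Type} [CommRing A] {N m : ℕ} (r : ℕ) (x : Co N m → A) (t : ℕ) : A :=
  if t < r then 1 else if t - r < m then dN (t - r + 1) (top (ux x) (cx x)) else dN (t - r) (cx x)

/-- The polynomials. -/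
noncomputable def Gs (n r N m : ℕ) (t : Fin n) : MvPolynomial (Co N m) ℤ :=
  gv r (fun i => X i) t

theorem ev_Gs {A : Type} [CommRing A] {n r N m : ℕ} (x : Co N m → A) (t : Fin n) :
    ev x (Gs n r N m t) = gv r x t := by
  have h1 : ∀ b, ev x (ux (fun i : Co N m => (X i : MvPolynomial (Co N m) ℤ)) b) = ux x b := by
    intro b
    unfold ux
    split_ifs
    · rw [ev_X]
    · rw [map_zero]
  have h2 : ∀ a b, ev x (cx (fun i : Co N m => (X i : MvPolynomial (Co N m) ℤ)) a b) = cx x a b := by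
    intro a b
    unfold cx
    split_ifs
    · rw [ev_X]
    · rw [map_zero]
  unfold Gs gv
  split_ifs
  · rw [map_one]
  · rw [map_dN]
    refine dN_congr fun i _ j _ => ?_
    cases i with
    | zero => exact h1 j
    | succ i => exact h2 i j
  · rw [map_dN]
    exact dN_congr fun i _ j _ => h2 i j

/-! ### the pivots -/

section pivot

variable (n r N m k : ℕ) (hk : k < m) (hm : m ≤ N + 1)

/-- the coordinates -/
def eF : ({b : Fin m // k ≤ (b : ℕ)} ⊕ Co N k) → Co N m
  | Sum.inl b => Sum.inl b.1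
  | Sum.inr (Sum.inl b) => Sum.inl ⟨b, by omega⟩
  | Sum.inr (Sum.inr (a, i)) => Sum.inr (a, ⟨mv k m i, mv_lt hk hm i.2⟩)

theorem eF_bij : Function.Bijective (eF N m k hk hm) := by
  constructor
  · rintro (⟨b, hb⟩ | b | ⟨a, i⟩) (⟨b', hb'⟩ | b' | ⟨a', i'⟩) h
    · simp only [eF, Sum.inl.injEq] at h
      subst h; rfl
    · simp only [eF, Sum.inl.injEq] at h
      subst h
      exact absurd b'.2 (not_lt.2 hb)
    · simp [eF] at h
    · simp only [eF, Sum.inl.injEq] at h
      subst h
      exact absurd b.2 (not_lt.2 hb')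
    · simp only [eF, Sum.inl.injEq, Fin.mk.injEq] at h
      rw [Fin.ext h]
    · simp [eF] at h
    · simp [eF] at h
    · simp [eF] at h
    · simp only [eF, Sum.inr.injEq, Prod.mk.injEq, Fin.mk.injEq] at h
      obtain ⟨rfl, h⟩ := h
      have := Fin.ext (mv_inj hk h)
      rw [this]
  · rintro (b | ⟨a, j⟩)
    · by_cases h : k ≤ (b : ℕ)
      · exact ⟨Sum.inl ⟨b, h⟩, rfl⟩
      · exact ⟨Sum.inr (Sum.inl ⟨b, by omega⟩), rfl⟩
    · obtain ⟨i, hi⟩ := (sg k m (N + 1) hk hm).surjective j
      refine ⟨Sum.inr (Sum.inr (a, i)), ?_⟩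
      simp only [eF]
      rw [← hi]
      rfl

/-- the coordinates -/
noncomputable def eE : ({b : Fin m // k ≤ (b : ℕ)} ⊕ Co N k) ≃ Co N m :=
  Equiv.ofBijective _ (eF_bij N m k hk hm)

theorem eE_inl (b : {b : Fin m // k ≤ (b : ℕ)}) : eE N m k hk hm (Sum.inl b) = Sum.inl b.1 := rfl
theorem eE_inrl (b : Fin k) : eE N m k hk hm (Sum.inr (Sum.inl b)) = Sum.inl ⟨b, by omega⟩ := rfl
theorem eE_inrr (a : Fin N) (i : Fin (N + 1)) : eE N m k hk hm (Sum.inr (Sum.inr (a, i))) =
    Sum.inr (a, ⟨mv k m i, mv_lt hk hm i.2⟩) := rfl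

/-- the coordinates which are not shifted -/
def qq : Co N k → Prop
  | Sum.inl _ => True
  | Sum.inr (_, i) => m ≤ (i : ℕ) + 1

theorem mv_lt' {k m i : ℕ} (h : i + 1 < m) : mv k m i < m := by
  unfold mv
  split_ifs <;> omega

/-- the shifts -/
noncomputable def gg : Co N k → MvPolynomial ({b : Fin m // k ≤ (b : ℕ)} ⊕ Co N k) ℤ
  | Sum.inl _ => 0
  | Sum.inr (a, i) => if h : (i : ℕ) + 1 < m then
      X ((eE N m k hk hm).symm (Sum.inl ⟨mv k m i, mv_lt' h⟩)) *
        X ((eE N m k hk hm).symm (Sum.inr (a, ⟨k, by omega⟩))) else 0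

theorem symm_inl (o : Fin m) : (∃ b, (eE N m k hk hm).symm (Sum.inl o) = Sum.inl b) ∨
    ∃ b, (eE N m k hk hm).symm (Sum.inl o) = Sum.inr (Sum.inl b) := by
  by_cases h : k ≤ (o : ℕ)
  · exact Or.inl ⟨⟨o, h⟩, by rw [Equiv.symm_apply_eq, eE_inl]⟩
  · exact Or.inr ⟨⟨o, by omega⟩, by rw [Equiv.symm_apply_eq, eE_inrl]⟩

theorem symm_inr (a : Fin N) : (eE N m k hk hm).symm (Sum.inr (a, ⟨k, by omega⟩)) =
    Sum.inr (Sum.inr (a, ⟨m - 1, by omega⟩)) := by
  rw [Equiv.symm_apply_eq, eE_inrr]
  congr 2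
  apply Fin.ext
  simp only [mv]
  rw [if_neg (by omega), if_neg (by omega), if_pos (by omega)]

open Classical in
/-- the signs -/
noncomputable def ss (t : ℕ) : ℤ :=
  if t < r then 1 else if t - r < k then 1 else if t - r < m then (-1) ^ k else
    if h : m ≤ t - r then (Equiv.Perm.sign (sg k m (t - r) hk h) : ℤ) else 1

/-- the exponents of the pivot -/
def rr (t : ℕ) : ℕ := if t < r then 0 else if t - r < k then 0 else if t - r < m then 1 else 0

/-- The pivot. -/
noncomputable def piv (hn : n = r + 1 + N) : PivQ (Gs n r N m) (Gs n r N k) where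
  P := {b : Fin m // k ≤ (b : ℕ)}
  fP := inferInstance
  e := eE N m k hk hm
  u := X ⟨⟨k, hk⟩, le_rfl⟩
  q := qq N m k
  g := gg N m k hk hm
  gq := by
    rintro (b | ⟨a, i⟩) hy
    · rfl
    · have h1 : m ≤ (i : ℕ) + 1 := hy
      simp only [gg]
      rw [dif_neg (by omega)]
  gd := by
    intro A _ x x' h1 h2 y
    rcases y with b | ⟨a, i⟩
    · simp only [gg, map_zero]
    · simp only [gg]
      split_ifs with h
      · rw [map_mul, map_mul, ev_X, ev_X, ev_X, ev_X, symm_inr N m k hk hm a,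
          h2 (Sum.inr (a, ⟨m - 1, by omega⟩)) (by
            show m ≤ (m - 1) + 1
            omega)]
        congr 1
        rcases symm_inl N m k hk hm ⟨mv k m i, mv_lt' h⟩ with ⟨b, hb⟩ | ⟨b, hb⟩
        · rw [hb, h1]
        · rw [hb, h2 (Sum.inl b) (show qq N m k (Sum.inl b) from trivial)]
      · simp only [map_zero]
  s := fun t => ss r m k hk t
  hs := by
    intro t
    unfold ss
    split_ifs
    · norm_num
    · norm_num
    · rw [← pow_add, ← two_mul, pow_mul]; simp
    · rw [← Units.val_mul, Int.units_mul_self]; rfl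
    · norm_num
  r := fun t => rr r m k t
  hc := by
    intro A _ x x' hU hrel t
    have hu0 : ev (fun a : {b : Fin m // k ≤ (b : ℕ)} => x (eE N m k hk hm (Sum.inl a)))
        (X ⟨⟨k, hk⟩, le_rfl⟩) = ux x k := by
      rw [ev_X, eE_inl]
      unfold ux
      rw [dif_pos hk]
    rw [hu0] at hU ⊢
    simp only [hu0] at hrel
    -- the relations
    have hu' : ∀ j, j < k → ux x j = ux x' j := by
      intro j hj
      have h1 := hrel (Sum.inl ⟨j, hj⟩)
      simp only [gg, map_zero, sub_zero, eE_inrl] at h1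
      have h2 := hU.mul_left_cancel h1
      unfold ux
      rw [dif_pos (by omega), dif_pos hj, h2]
    have hC : ∀ a < N, ∀ i, i + 1 < m → ux x k * cx x' a i =
        ux x k * cx x a (mv k m i) - ux x (mv k m i) * cx x a k := by
      intro a ha i hi
      have h1 := hrel (Sum.inr (⟨a, ha⟩, ⟨i, by omega⟩))
      simp only [gg] at h1
      rw [dif_pos hi, map_mul, ev_X, ev_X, Equiv.apply_symm_apply, Equiv.apply_symm_apply,
        eE_inrr] at h1
      have h3 : cx x' a i = x' (Sum.inr (⟨a, ha⟩, ⟨i, by omega⟩)) := by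
        unfold cx; rw [dif_pos ⟨ha, by omega⟩]
      have h4 : cx x a (mv k m i) = x (Sum.inr (⟨a, ha⟩, ⟨mv k m i, mv_lt hk hm (by omega)⟩)) := by
        unfold cx; rw [dif_pos ⟨ha, mv_lt hk hm (by omega)⟩]
      have h5 : cx x a k = x (Sum.inr (⟨a, ha⟩, ⟨k, by omega⟩)) := by
        unfold cx; rw [dif_pos ⟨ha, by omega⟩]
      have h6 : ux x (mv k m i) = x (Sum.inl ⟨mv k m i, mv_lt' hi⟩) := by
        unfold ux; rw [dif_pos (mv_lt' hi)]
      rw [h3, h4, h5, h6]
      exact h1
    have hC' : ∀ a < N, ∀ i < N + 1, m ≤ i + 1 → cx x' a i = cx x a (mv k m i) := by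
      intro a ha i hi hi'
      have h1 := hrel (Sum.inr (⟨a, ha⟩, ⟨i, hi⟩))
      simp only [gg] at h1
      rw [dif_neg (by omega), map_zero, sub_zero, eE_inrr] at h1
      have h2 := hU.mul_left_cancel h1
      have h3 : cx x' a i = x' (Sum.inr (⟨a, ha⟩, ⟨i, hi⟩)) := by
        unfold cx; rw [dif_pos ⟨ha, hi⟩]
      have h4 : cx x a (mv k m i) = x (Sum.inr (⟨a, ha⟩, ⟨mv k m i, mv_lt hk hm hi⟩)) := by
        unfold cx; rw [dif_pos ⟨ha, mv_lt hk hm hi⟩]
      rw [h3, h4]
      exact h2
    rw [ev_Gs, ev_Gs]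
    have htN : (t : ℕ) - r ≤ N := by have := t.2; omega
    unfold gv ss rr
    by_cases h1 : (t : ℕ) < r
    · simp only [if_pos h1, Int.cast_one, pow_zero, mul_one]
    · simp only [if_neg h1]
      by_cases h2 : (t : ℕ) - r < k
      · simp only [if_pos h2, if_pos (h2.trans hk), Int.cast_one, pow_zero, one_mul]
        rw [small_q h2 (ux x) (cx x) (cx x') hU (fun a ha i hi => by
          have h3 := hC a (by omega) i (by omega)
          have h4 : mv k m i = i := by unfold mv; rw [if_pos hi]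
          rw [h4] at h3
          exact h3)]
        refine dN_congr fun i _ j hj => ?_
        cases i with
        | zero => exact hu' j (by omega)
        | succ i => rfl
      · simp only [if_neg h2]
        by_cases h3 : (t : ℕ) - r < m
        · simp only [if_pos h3, pow_one]
          rw [mid_q (not_lt.1 h2) h3 (ux x) (cx x) (cx x') hU
            (fun a ha i hi => hC a (by omega) i hi)]
          push_cast
          rfl
        · have h4 : m ≤ (t : ℕ) - r := not_lt.1 h3
          simp only [if_neg h3, dif_pos h4, pow_zero, mul_one]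
          rw [big_q hk h4 (ux x) (cx x) (cx x') hU (fun a ha i hi => hC a (by omega) i hi)
            (fun a ha i hi hi' => hC' a (by omega) i (by omega) hi')]

end pivot

end Pool.Agent.K6.H33.NT
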