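import Pool.Agent.K6.H33.NT.NS

set_option autoImplicit false

/-! # The recursion over the states -/

namespace Pool.Agent.K6.H33.NT

open MvPolynomial Pool.Agent.W428.MOT Pool.Agent.TH192.DT Pool.Agent.TH192.MT
  Pool.Agent.TH192.MU

/-! ### relabelling -/

section relabel

variable (n r N : ℕ)

/-- the coordinates -/
def eR : (Fin (N + 1) ⊕ Co N (N + 1)) → Co (N + 1) 0
  | Sum.inl a => Sum.inr (a, Fin.last (N + 1))
  | Sum.inr (Sum.inl b) => Sum.inr (0, b.castSucc)
  | Sum.inr (Sum.inr (a, b)) => Sum.inr (a.succ, b.castSucc)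

theorem eR_bij : Function.Bijective (eR N) := by
  constructor
  · rintro (a | b | ⟨a, b⟩) (a' | b' | ⟨a', b'⟩) h
    · simp only [eR, Sum.inr.injEq, Prod.mk.injEq] at h
      rw [h.1]
    · simp only [eR, Sum.inr.injEq, Prod.mk.injEq] at h
      exact absurd h.2 (Fin.castSucc_lt_last b').ne'
    · simp only [eR, Sum.inr.injEq, Prod.mk.injEq] at h
      exact absurd h.2 (Fin.castSucc_lt_last b').ne'
    · simp only [eR, Sum.inr.injEq, Prod.mk.injEq] at h
      exact absurd h.2 (Fin.castSucc_lt_last b).ne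
    · simp only [eR, Sum.inr.injEq, Prod.mk.injEq] at h
      rw [Fin.castSucc_injective _ h.2]
    · simp only [eR, Sum.inr.injEq, Prod.mk.injEq] at h
      exact absurd h.1 (Fin.succ_ne_zero a').symm
    · simp only [eR, Sum.inr.injEq, Prod.mk.injEq] at h
      exact absurd h.2 (Fin.castSucc_lt_last b).ne
    · simp only [eR, Sum.inr.injEq, Prod.mk.injEq] at h
      exact absurd h.1 (Fin.succ_ne_zero a)
    · simp only [eR, Sum.inr.injEq, Prod.mk.injEq] at h
      rw [Fin.castSucc_injective _ h.2, Fin.succ_injective _ h.1]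
  · rintro (b | ⟨a, j⟩)
    · exact b.elim0
    · refine Fin.lastCases ?_ (fun b => ?_) j
      · exact ⟨Sum.inl a, rfl⟩
      · refine Fin.cases ?_ (fun a => ?_) a
        · exact ⟨Sum.inr (Sum.inl b), rfl⟩
        · exact ⟨Sum.inr (Sum.inr (a, b)), rfl⟩

/-- The next row. -/
noncomputable def nxt (hn : n = r + 1 + (N + 1)) : PivQ (Gs n r (N + 1) 0) (Gs n (r + 1) N (N + 1)) where
  P := Fin (N + 1)
  fP := inferInstance
  e := Equiv.ofBijective _ (eR_bij N)
  u := 1
  q := fun _ => True
  g := fun _ => 0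
  gq := fun _ _ => rfl
  gd := by
    intro A _ x x' _ _ y
    rw [map_zero, map_zero]
  s := fun _ => 1
  hs := fun _ => by norm_num
  r := fun _ => 0
  hc := by
    intro A _ x x' _ hrel t
    have h1 : ∀ y, x' y = x (eR N (Sum.inr y)) := by
      intro y
      have h2 := hrel y
      rw [map_one, one_mul, one_mul, map_zero, sub_zero] at h2
      exact h2
    rw [ev_Gs, ev_Gs, pow_zero, Int.cast_one, one_mul, one_mul]
    unfold gv
    by_cases h2 : (t : ℕ) < r
    · rw [if_pos h2, if_pos (by omega)]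
    · rw [if_neg h2, if_neg (by omega)]
      by_cases h3 : (t : ℕ) < r + 1
      · rw [if_pos h3]
        have h4 : (t : ℕ) - r = 0 := by omega
        rw [h4]
        simp [dN]
      · have h5 : (t : ℕ) - (r + 1) < N + 1 := by have := t.2; omega
        rw [if_neg h3, if_pos h5]
        have h6 : (t : ℕ) - r = (t : ℕ) - (r + 1) + 1 := by omega
        rw [h6]
        refine dN_congr fun i hi j hj => ?_
        cases i with
        | zero =>
          show cx x 0 j = ux x' j
          unfold cx ux
          rw [dif_pos ⟨by omega, by omega⟩, dif_pos (by omega), h1]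
          rfl
        | succ i =>
          show cx x (i + 1) j = cx x' i j
          unfold cx
          rw [dif_pos ⟨by omega, by omega⟩, dif_pos ⟨by omega, by omega⟩, h1]
          rfl

/-- the coordinates of the whole matrix -/
def eI : (Empty ⊕ Co N (N + 1)) → Fin (N + 1) × Fin (N + 1)
  | Sum.inl a => a.elim
  | Sum.inr (Sum.inl b) => (0, b)
  | Sum.inr (Sum.inr (a, b)) => (a.succ, b)

theorem eI_bij : Function.Bijective (eI N) := by
  constructor
  · rintro (a | b | ⟨a, b⟩) (a' | b' | ⟨a', b'⟩) h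
    · exact a.elim
    · exact a.elim
    · exact a.elim
    · exact a'.elim
    · simp only [eI, Prod.mk.injEq] at h
      rw [h.2]
    · simp only [eI, Prod.mk.injEq] at h
      exact absurd h.1 (Fin.succ_ne_zero a').symm
    · exact a'.elim
    · simp only [eI, Prod.mk.injEq] at h
      exact absurd h.1 (Fin.succ_ne_zero a)
    · simp only [eI, Prod.mk.injEq] at h
      rw [h.2, Fin.succ_injective _ h.1]
  · rintro ⟨a, b⟩
    refine Fin.cases ?_ (fun a => ?_) a
    · exact ⟨Sum.inr (Sum.inl b), rfl⟩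
    · exact ⟨Sum.inr (Sum.inr (a, b)), rfl⟩

/-- The leading minors of the generic matrix. -/
noncomputable def Gm (n : ℕ) (t : Fin n) : MvPolynomial (Fin n × Fin n) ℤ :=
  Matrix.det (Matrix.of fun i j : Fin ((t : ℕ) + 1) =>
    (X (Fin.castLE t.isLt i, Fin.castLE t.isLt j) : MvPolynomial (Fin n × Fin n) ℤ))

/-- The first row. -/
noncomputable def ini : PivQ (Gm (N + 1)) (Gs (N + 1) 0 N (N + 1)) where
  P := Empty
  fP := inferInstance
  e := Equiv.ofBijective _ (eI_bij N)
  u := 1
  q := fun _ => True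
  g := fun _ => 0
  gq := fun _ _ => rfl
  gd := by
    intro A _ x x' _ _ y
    rw [map_zero, map_zero]
  s := fun _ => 1
  hs := fun _ => by norm_num
  r := fun _ => 0
  hc := by
    intro A _ x x' _ hrel t
    have h1 : ∀ y, x' y = x (eI N (Sum.inr y)) := by
      intro y
      have h2 := hrel y
      rw [map_one, one_mul, one_mul, map_zero, sub_zero] at h2
      exact h2
    rw [ev_Gs, pow_zero, Int.cast_one, one_mul, one_mul]
    have h3 : ev x (Gm (N + 1) t) = dN ((t : ℕ) + 1) (fun i j => if h : i < N + 1 ∧ j < N + 1 then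
        x (⟨i, h.1⟩, ⟨j, h.2⟩) else 0) := by
      unfold Gm dN
      rw [RingHom.map_det]
      congr 1
      ext i j
      have hi : (i : ℕ) < N + 1 := by have := t.2; omega
      have hj : (j : ℕ) < N + 1 := by have := t.2; omega
      simp only [RingHom.mapMatrix_apply, Matrix.map_apply, Matrix.of_apply]
      rw [ev_X, dif_pos ⟨hi, hj⟩]
      rfl
    rw [h3]
    unfold gv
    rw [if_neg (by omega), Nat.sub_zero, if_pos t.2]
    refine dN_congr fun i hi j hj => ?_
    have ht := t.2
    cases i with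
    | zero =>
      show _ = ux x' j
      unfold ux
      rw [dif_pos ⟨by omega, by omega⟩, dif_pos (by omega), h1]
      rfl
    | succ i =>
      show _ = cx x' i j
      unfold cx
      rw [dif_pos ⟨by omega, by omega⟩, dif_pos ⟨by omega, by omega⟩, h1]
      rfl

end relabel

/-- A choice of the families. -/
noncomputable def PivQ.comp {T n : ℕ} {ι ι' : Type} {G : Fin n → MvPolynomial ι ℤ}
    {G' : Fin n → MvPolynomial ι' ℤ} (p : PivQ G G') (κ : Fin T → Fin n) :
    PivQ (fun t => G (κ t)) (fun t => G' (κ t)) where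
  P := p.P
  fP := p.fP
  e := p.e
  u := p.u
  q := p.q
  g := p.g
  gq := p.gq
  gd := p.gd
  s := fun t => p.s (κ t)
  hs := fun t => p.hs _
  r := fun t => p.r (κ t)
  hc := fun A _ x x' h1 h2 t => p.hc A x x' h1 h2 (κ t)

section drop

variable (n r N m : ℕ)

/-- the coordinates -/
def eD : (Fin 1 ⊕ Co N m) → Co N (m + 1)
  | Sum.inl _ => Sum.inl (Fin.last m)
  | Sum.inr (Sum.inl b) => Sum.inl b.castSucc
  | Sum.inr (Sum.inr y) => Sum.inr y

theorem eD_bij : Function.Bijective (eD N m) := by
  constructor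
  · rintro (a | b | y) (a' | b' | y') h
    · rw [Subsingleton.elim a a']
    · simp only [eD, Sum.inl.injEq] at h
      exact absurd h.symm (Fin.castSucc_lt_last b').ne
    · simp [eD] at h
    · simp only [eD, Sum.inl.injEq] at h
      exact absurd h (Fin.castSucc_lt_last b).ne
    · simp only [eD, Sum.inl.injEq] at h
      rw [Fin.castSucc_injective _ h]
    · simp [eD] at h
    · simp [eD] at h
    · simp [eD] at h
    · simp only [eD, Sum.inr.injEq] at h
      rw [h]
  · rintro (b | y)
    · refine Fin.lastCases ?_ (fun b => ?_) b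
      · exact ⟨Sum.inl 0, rfl⟩
      · exact ⟨Sum.inr (Sum.inl b), rfl⟩
    · exact ⟨Sum.inr (Sum.inr y), rfl⟩

/-- A coordinate which is not used. -/
noncomputable def drp {T : ℕ} (κ : Fin T → Fin n) (hκ : ∀ t, (κ t : ℕ) ≠ r + m) :
    PivQ (fun t => Gs n r N (m + 1) (κ t)) (fun t => Gs n r N m (κ t)) where
  P := Fin 1
  fP := inferInstance
  e := Equiv.ofBijective _ (eD_bij N m)
  u := 1
  q := fun _ => True
  g := fun _ => 0
  gq := fun _ _ => rfl
  gd := by
    intro A _ x x' _ _ y
    rw [map_zero, map_zero]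
  s := fun _ => 1
  hs := fun _ => by norm_num
  r := fun _ => 0
  hc := by
    intro A _ x x' _ hrel t
    have h1 : ∀ y, x' y = x (eD N m (Sum.inr y)) := by
      intro y
      have h2 := hrel y
      rw [map_one, one_mul, one_mul, map_zero, sub_zero] at h2
      exact h2
    rw [ev_Gs, ev_Gs, pow_zero, Int.cast_one, one_mul, one_mul]
    have hk := hκ t
    have hcx : cx x = cx x' := by
      funext a b
      unfold cx
      by_cases h : a < N ∧ b < N + 1
      · rw [dif_pos h, dif_pos h, h1]
        rfl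
      · rw [dif_neg h, dif_neg h]
    unfold gv
    by_cases h2 : (κ t : ℕ) < r
    · rw [if_pos h2, if_pos h2]
    · rw [if_neg h2, if_neg h2]
      by_cases h3 : (κ t : ℕ) - r < m
      · rw [if_pos (by omega), if_pos h3]
        refine dN_congr fun i hi j hj => ?_
        cases i with
        | zero =>
          show ux x j = ux x' j
          unfold ux
          rw [dif_pos (by omega), dif_pos (by omega), h1]
          rfl
        | succ i =>
          show cx x i j = cx x' i j
          rw [hcx]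
      · rw [if_neg (by omega), if_neg h3, hcx]

end drop

/-! ### the recursion -/

/-- The pairs. -/
def Ds {T n : ℕ} (κ : Fin T → Fin n) (a : Fin T → ℕ) : Set (ℤ × ℤ) :=
  {q | ∃ r m : ℕ, (∃ t, (κ t : ℕ) = r + m) ∧ q = (-((m + 1 : ℕ) : ℤ),
    ((∑ t : Fin T, if r ≤ (κ t : ℕ) ∧ (κ t : ℕ) - r < m + 1 then a t else 0 : ℕ) : ℤ))}

theorem top_smul {A : Type} [CommRing A] (q : ℕ) (c : A) (u : ℕ → A) (C : ℕ → ℕ → A) :
    dN (q + 1) (top (fun j => c * u j) C) = c * dN (q + 1) (top u C) := by
  unfold dN
  rw [Matrix.det_succ_row_zero, Matrix.det_succ_row_zero, Finset.mul_sum]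
  refine Finset.sum_congr rfl fun j _ => ?_
  have h1 : (Matrix.of fun i j : Fin (q + 1) => top (fun j => c * u j) C i j).submatrix Fin.succ
      (Fin.succAbove j) = (Matrix.of fun i j : Fin (q + 1) => top u C i j).submatrix Fin.succ
      (Fin.succAbove j) := by
    ext a b
    rfl
  rw [h1]
  have h2 : (Matrix.of fun i j : Fin (q + 1) => top (fun j => c * u j) C i j) 0 j = c * u j := rfl
  have h3 : (Matrix.of fun i j : Fin (q + 1) => top u C i j) 0 j = u j := rfl
  rw [h2, h3]
  ring

/-- the coordinates of the partial row -/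
def om (N m : ℕ) : Co N m → Prop := fun y => y.isLeft = true

instance (N m : ℕ) : DecidablePred (om N m) := fun y => by unfold om; infer_instance

theorem card_om (N m : ℕ) : Fintype.card {y : Co N m // om N m y} = m := by
  have h1 : Function.Bijective (fun b : Fin m => (⟨Sum.inl b, rfl⟩ : {y : Co N m // om N m y})) := by
    constructor
    · intro b b' h
      simpa using h
    · rintro ⟨y | y, hy⟩
      · exact ⟨y, rfl⟩
      · simp [om] at hy
  rw [← Fintype.card_of_bijective h1, Fintype.card_fin]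

theorem phom {T n : ℕ} (κ : Fin T → Fin n) (r N m : ℕ) :
    PHom (pS (Co N m) (fun t => Gs n r N m (κ t))) (om N m)
    (fun t => if r ≤ (κ t : ℕ) ∧ (κ t : ℕ) - r < m then 1 else 0) := by
  intro t A _ c x
  change ev _ (Gs n r N m (κ t)) = c ^ (if r ≤ (κ t : ℕ) ∧ (κ t : ℕ) - r < m then 1 else 0) *
    ev x (Gs n r N m (κ t))
  rw [ev_Gs, ev_Gs]
  have hu : ux (fun i : Co N m => if om N m i then c * x i else x i) = fun j => c * ux x j := by
    funext j
    unfold ux
    by_cases h1 : j < m
    · rw [dif_pos h1, dif_pos h1]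
      rfl
    · rw [dif_neg h1, dif_neg h1, mul_zero]
  have hc : cx (fun i : Co N m => if om N m i then c * x i else x i) = cx x := by
    funext a b
    unfold cx
    by_cases h1 : a < N ∧ b < N + 1
    · rw [dif_pos h1, dif_pos h1]
      rfl
    · rw [dif_neg h1, dif_neg h1]
  unfold gv
  rw [hu, hc]
  by_cases h1 : (κ t : ℕ) < r
  · rw [if_pos h1, if_pos h1, if_neg (by omega), pow_zero, one_mul]
  · rw [if_neg h1, if_neg h1]
    by_cases h2 : (κ t : ℕ) - r < m
    · rw [if_pos h2, if_pos h2, if_pos ⟨by omega, h2⟩, pow_one, top_smul]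
    · rw [if_neg h2, if_neg h2, if_neg (by omega), pow_zero, one_mul]

section rec

variable (hPQ : S_PQ) (hPS : S_PS) {K : Type} [Field K] {R : Type} [CommRing R] {u : Rˣ}
  {M : Meas K R} (hu : M.L = (u : R)) {T n : ℕ} {a : Fin T → ℕ} (ha : ∀ t, 0 < a t)
  (κ : Fin T → Fin n)

include hPQ hu in
/-- one pivot which is always invertible -/
theorem rl_one {D : Set (ℤ × ℤ)} {ι ι' : Type} [Fintype ι] [Fintype ι']
    {G : Fin T → MvPolynomial ι ℤ} {G' : Fin T → MvPolynomial ι' ℤ} (p : PivQ G G')
    (hp : p.u = 1) (h : RL u M a D (pS ι' G')) : RL u M a D (pS ι G) := by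
  intro π _ V hV hG hC
  refine hPQ hu G (B := Unit) (fun _ => ι') (fun _ => G') (fun _ => p) (fun _ => h) Finset.univ π V
    hV hG hC fun v _ => ⟨(), Finset.mem_univ _, ?_⟩
  rw [hp, map_one]
  exact one_ne_zero

include hu ha in
/-- all the polynomials are constant -/
theorem rl_const (D : Set (ℤ × ℤ)) {ι : Type} [Fintype ι] (G : Fin T → MvPolynomial ι ℤ)
    (hG1 : ∀ t, G t = 1) : RL u M a D (pS ι G) := by
  intro π _ V hV hG hC
  rw [gf_const a ha]
  · exact ratL_C u _
  · rintro α ⟨t, ht⟩
    have h2 : SS (pS ι G) V α (∑ t, α t) = ∅ := by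
      rw [Set.eq_empty_iff_forall_notMem]
      intro z hz
      obtain ⟨l, hl, hl'⟩ := hG _ hz.2 t
      apply hl'
      have hl2 : l = t := hl
      rw [dat_lam, lam]
      change PowerSeries.coeff (α l) (ev _ (G l)) = 0
      rw [hG1, map_one, PowerSeries.coeff_one, if_neg (by rw [hl2]; exact ht)]
    unfold mm
    rw [h2, Pool.Agent.W375.MT.chi_empty, zero_mul]

include hu ha in
/-- the last state -/
theorem rl_zero (D : Set (ℤ × ℤ)) (r : ℕ) (hn : n = r + 1) :
    RL u M a D (pS (Co 0 0) (fun t => Gs n r 0 0 (κ t))) := by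
  refine rl_const hu ha D _ fun t => ?_
  unfold Gs gv
  split_ifs with h1 h2
  · rfl
  · omega
  · have h3 : (κ t : ℕ) - r = 0 := by have := (κ t).2; omega
    rw [h3]
    simp [dN]

include hPQ hPS hu ha in
/-- a row -/
theorem rl_row (N r : ℕ) (hn : n = r + 1 + N)
    (h0 : RL u M a (Ds κ a) (pS (Co N 0) (fun t => Gs n r N 0 (κ t)))) :
    ∀ m, m ≤ N + 1 → RL u M a (Ds κ a) (pS (Co N m) (fun t => Gs n r N m (κ t))) := by
  intro m
  induction m using Nat.strong_induction_on with
  | _ m ih =>
    intro hm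
    rcases Nat.eq_zero_or_pos m with rfl | hm0
    · exact h0
    obtain ⟨m, rfl⟩ : ∃ m', m = m' + 1 := ⟨m - 1, by omega⟩
    by_cases hκ : ∃ t, (κ t : ℕ) = r + m
    · refine hPS hu ha (om N (m + 1))
        (fun t => if r ≤ (κ t : ℕ) ∧ (κ t : ℕ) - r < m + 1 then 1 else 0)
        (phom κ r N (m + 1)) ?_ ?_ ?_
      · obtain ⟨t, ht⟩ := hκ
        refine lt_of_lt_of_le ?_ (Finset.single_le_sum (f := fun t : Fin T =>
          a t * if r ≤ (κ t : ℕ) ∧ (κ t : ℕ) - r < m + 1 then 1 else 0) (fun _ _ => Nat.zero_le _)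
          (Finset.mem_univ t))
        rw [if_pos (by omega), mul_one]
        exact ha _
      · rw [card_om]
        refine ⟨r, m, hκ, ?_⟩
        congr 2
        refine Finset.sum_congr rfl fun t _ => ?_
        rw [mul_ite, mul_one, mul_zero]
      · intro π _ V hV hG hC hnz
        refine hPQ hu _ (B := Fin (m + 1)) (fun k => Co N k) (fun k t => Gs n r N k (κ t))
          (fun k => (piv n r N (m + 1) k k.2 hm hn).comp κ) (fun k => ih k k.2 (by omega))
          Finset.univ π V hV hG hC fun v hv => ?_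
        obtain ⟨i, hi, hi'⟩ := hnz v hv
        rcases i with b | y
        · refine ⟨b, Finset.mem_univ _, ?_⟩
          change ev _ (X _) ≠ 0
          rw [ev_X]
          exact hi'
        · simp [om] at hi
    · push Not at hκ
      exact rl_one hPQ hu (drp n r N m κ hκ) rfl (ih m (Nat.lt_succ_self m) (by omega))

include hPQ hPS hu ha in
/-- all the states -/
theorem rl_state : ∀ (N r m : ℕ), n = r + 1 + N → m ≤ N + 1 →
    RL u M a (Ds κ a) (pS (Co N m) (fun t => Gs n r N m (κ t))) := by
  intro N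
  induction N with
  | zero =>
    intro r m hn hm
    exact rl_row hPQ hPS hu ha κ 0 r hn (rl_zero hu ha κ _ r (by omega)) m hm
  | succ N ih =>
    intro r m hn hm
    exact rl_row hPQ hPS hu ha κ (N + 1) r hn
      (rl_one hPQ hu ((nxt n r N hn).comp κ) rfl (ih (r + 1) (N + 1) (by omega) le_rfl)) m hm

end rec

/-- **Rationality for the leading minors.** -/
theorem rl_minors (hPQ : S_PQ) (hPS : S_PS) {K : Type} [Field K] {R : Type} [CommRing R] {u : Rˣ}
    {M : Meas K R} (hu : M.L = (u : R)) {T n : ℕ} {a : Fin T → ℕ} (ha : ∀ t, 0 < a t)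
    (κ : Fin T → Fin n) :
    RL u M a (Ds κ a) (pS (Fin n × Fin n) (fun t => Gm n (κ t))) := by
  cases n with
  | zero => exact rl_const hu ha _ _ fun t => (κ t).elim0
  | succ N =>
    exact rl_one hPQ hu ((ini N).comp κ) rfl
      (rl_state hPQ hPS hu ha κ N 0 (N + 1) (by omega) le_rfl)

end Pool.Agent.K6.H33.NT
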