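import Pool.Agent.TH192.MU.TopZ
import Pool.Agent.H628R4.TP.LocDefs

set_option autoImplicit false

/-! # Statements for the motivic zeta functions of products of nested minors -/

namespace Pool.Agent.K6.H33.NT

open MvPolynomial Pool.Agent.W428.MOT Pool.Agent.TH192.DT Pool.Agent.TH192.MT
  Pool.Agent.TH192.MU

/-- A system with one polynomial in each family. -/
@[reducible] noncomputable def pS {T : ℕ} (ι : Type) [Fintype ι] (G : Fin T → MvPolynomial ι ℤ) :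
    Sys T where
  ι := ι
  fι := inferInstance
  Λ := Fin T
  fΛ := inferInstance
  τ := id
  G := G

/-- A pivot with coordinates which are not shifted but may be used in the shifts of the other
coordinates. -/
structure PivQ {T : ℕ} {ι ι' : Type} (G : Fin T → MvPolynomial ι ℤ)
    (G' : Fin T → MvPolynomial ι' ℤ) where
  P : Type
  fP : Fintype P
  e : P ⊕ ι' ≃ ι
  u : MvPolynomial P ℤ
  q : ι' → Prop
  g : ι' → MvPolynomial (P ⊕ ι') ℤ
  gq : ∀ y, q y → g y = 0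
  gd : ∀ (A : Type) [CommRing A] (x x' : P ⊕ ι' → A),
    (∀ a, x (Sum.inl a) = x' (Sum.inl a)) → (∀ y, q y → x (Sum.inr y) = x' (Sum.inr y)) →
    ∀ y, ev x (g y) = ev x' (g y)
  s : Fin T → ℤ
  hs : ∀ t, s t * s t = 1
  r : Fin T → ℕ
  hc : ∀ (A : Type) [CommRing A] (x : ι → A) (x' : ι' → A),
    IsUnit (ev (fun a => x (e (Sum.inl a))) u) →
    (∀ y, ev (fun a => x (e (Sum.inl a))) u * x' y =
      ev (fun a => x (e (Sum.inl a))) u * x (e (Sum.inr y)) - ev (fun z => x (e z)) (g y)) →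
    ∀ t, ev x (G t) = (s t : A) * (ev (fun a => x (e (Sum.inl a))) u) ^ r t * ev x' (G' t)

attribute [instance] PivQ.fP

/-- Piece PQ: the part where some pivot does not vanish. -/
def S_PQ : Prop := ∀ {K : Type} [Field K] {T : ℕ} {R : Type} [CommRing R] {u : Rˣ} {M : Meas K R}
  {a : Fin T → ℕ} (_ : M.L = (u : R)) {D : Set (ℤ × ℤ)} {ι : Type} [Fintype ι]
  (G : Fin T → MvPolynomial ι ℤ) {B : Type} (ι' : B → Type) [∀ b, Fintype (ι' b)]
  (G' : ∀ b, Fin T → MvPolynomial (ι' b) ℤ) (p : ∀ b, PivQ G (G' b))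
  (_ : ∀ b, RL u M a D (pS (ι' b) (G' b))) (s : Finset B) (π : Type) [Fintype π]
  (V : Set (Pt K (π ⊕ (ι ⊕ Fin T)))), Constr V → Gd (pS ι G) V → Cone (pS ι G) V →
  (∀ v ∈ V, ∃ b ∈ s, ev (fun q => v (Sum.inr (Sum.inl ((p b).e (Sum.inl q))))) (p b).u ≠ 0) →
  gf a (mm M (((u⁻¹ : Rˣ) : R)) (pS ι G) V) ∈ ratL u D

/-- The polynomials of the family `t` are homogeneous of degree `e t` in the coordinates with `ω`. -/
def PHom {T : ℕ} (X : Sys T) (ω : X.ι → Prop) [DecidablePred ω] (e : Fin T → ℕ) : Prop :=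
  ∀ (l : X.Λ) (A : Type) [CommRing A] (c : A) (x : X.ι → A),
    ev (fun i => if ω i then c * x i else x i) (X.G l) = c ^ e (X.τ l) * ev x (X.G l)

/-- Piece PS: scaling of a part of the coordinates. -/
def S_PS : Prop := ∀ {K : Type} [Field K] {T : ℕ} {R : Type} [CommRing R] {u : Rˣ} {M : Meas K R}
  {a : Fin T → ℕ} (_ : M.L = (u : R)) {D : Set (ℤ × ℤ)} {X : Sys T} (_ : ∀ t, 0 < a t)
  (ω : X.ι → Prop) [DecidablePred ω] (e : Fin T → ℕ) (_ : PHom X ω e)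
  (_ : 0 < ∑ t, a t * e t)
  (_ : (-((Fintype.card {i // ω i} : ℕ) : ℤ), ((∑ t, a t * e t : ℕ) : ℤ)) ∈ D)
  (_ : ∀ (π : Type) [Fintype π] (V : Set (Pt K (π ⊕ (X.ι ⊕ X.Λ)))), Constr V → Gd X V →
    Cone X V → (∀ v ∈ V, ∃ i, ω i ∧ v (Sum.inr (Sum.inl i)) ≠ 0) →
    gf a (mm M (((u⁻¹ : Rˣ) : R)) X V) ∈ ratL u D),
  RL u M a D X

/-- Piece JD: the motivic zeta function of a product of powers. -/
def S_JD : Prop := ∀ {T : ℕ} {ι : Type} [Fintype ι] (G : Fin T → MvPolynomial ι ℤ)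
  (a : Fin T → ℕ) (_ : ∀ t, 0 < a t) {W : Set (Pt ℂ ι)} (_ : Constr W) (D : Set (ℤ × ℤ))
  (_ : ∀ M : Meas ℂ (MK ℂ), M.L = ((Lu ℂ : (MK ℂ)ˣ) : MK ℂ) → RL (Lu ℂ) M a D (pS ι G)),
  zetaM (map (Int.castRingHom ℂ) (∏ t, G t ^ a t)) W {c | c ≠ 0} ∈ ratL (Lu ℂ) D

/-- Piece LB: local functional equations of homogeneous polynomials. -/
def S_LB : Prop := ∀ {σ : Type} [Fintype σ] (f : MvPolynomial σ ℂ) (d : ℕ), f.IsHomogeneous d →
  ∀ b : Polynomial ℂ, Pool.Agent.H628R4.TP.IsLocalBFunction f b →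
    Pool.Agent.H628R4.TP.IsBFunction f b

end Pool.Agent.K6.H33.NT
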